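import Mathlib

set_option autoImplicit false

open Complex Topology Filter Metric MeasureTheory Set

namespace Pool.Agent.TH425.BF

/-- the right half plane -/
def HP : Set ℂ := {s : ℂ | 0 < s.re}

theorem isOpen_HP : IsOpen HP := isOpen_lt continuous_const continuous_re

theorem convex_HP : Convex ℝ HP := convex_halfSpace_re_gt 0

theorem cayley_mem {s : ℂ} (hs : s ∈ HP) : (s - 1) / (s + 1) ∈ ball (0 : ℂ) 1 := by
  have hs' : 0 < s.re := hs
  have h1 : s + 1 ≠ 0 := by
    intro h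
    have := congrArg Complex.re h
    simp at this
    linarith
  rw [mem_ball_zero_iff, norm_div, div_lt_one (norm_pos_iff.mpr h1)]
  have h2 : ‖s - 1‖ ^ 2 < ‖s + 1‖ ^ 2 := by
    rw [Complex.sq_norm, Complex.sq_norm, Complex.normSq_apply, Complex.normSq_apply]
    simp
    nlinarith
  exact lt_of_pow_lt_pow_left₀ 2 (norm_nonneg _) h2

theorem icayley_mem {w : ℂ} (hw : w ∈ ball (0 : ℂ) 1) : (1 + w) / (1 - w) ∈ HP := by
  rw [mem_ball_zero_iff] at hw
  have h1 : 1 - w ≠ 0 := by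
    intro h
    have : w = 1 := (sub_eq_zero.mp h).symm
    rw [this, norm_one] at hw
    linarith
  have h2 : (1 + w) / (1 - w) = ((1 + w) * (starRingEnd ℂ) (1 - w)) / (normSq (1 - w) : ℂ) := by
    rw [Complex.normSq_eq_conj_mul_self]
    have : (starRingEnd ℂ) (1 - w) ≠ 0 := by
      rw [Ne, map_eq_zero]; exact h1
    field_simp
  change 0 < ((1 + w) / (1 - w)).re
  rw [h2, div_ofReal_re]
  apply div_pos _ (normSq_pos.mpr h1)
  have h3 : normSq w < 1 := by
    rw [Complex.normSq_eq_norm_sq]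
    nlinarith [norm_nonneg w]
  rw [Complex.normSq_apply] at h3
  simp
  nlinarith

/-- Holomorphic functions on the half plane have primitives. -/
theorem exists_prim {f : ℂ → ℂ} (hf : DifferentiableOn ℂ f HP) :
    ∃ F : ℂ → ℂ, ∀ s ∈ HP, HasDerivAt F (f s) s := by
  set k : ℂ → ℂ := fun w => f ((1 + w) / (1 - w)) * (2 / (1 - w) ^ 2) with hk
  have hne : ∀ w ∈ ball (0 : ℂ) 1, 1 - w ≠ 0 := by
    intro w hw h
    rw [mem_ball_zero_iff] at hw
    have : w = 1 := (sub_eq_zero.mp h).symm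
    rw [this, norm_one] at hw
    linarith
  have hkd : DifferentiableOn ℂ k (ball 0 1) := by
    apply DifferentiableOn.mul
    · apply hf.comp
      · apply DifferentiableOn.div (by fun_prop) (by fun_prop) hne
      · intro w hw
        exact icayley_mem hw
    · apply DifferentiableOn.div (by fun_prop) (by fun_prop)
      intro w hw
      exact pow_ne_zero _ (hne w hw)
  obtain ⟨K, hK⟩ := hkd.isExactOn_ball
  refine ⟨fun s => K ((s - 1) / (s + 1)), fun s hs => ?_⟩
  have hs' : 0 < s.re := hs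
  have h1 : s + 1 ≠ 0 := by
    intro h
    have := congrArg Complex.re h
    simp at this
    linarith
  have h2 : HasDerivAt (fun s : ℂ => (s - 1) / (s + 1)) ((1 * (s + 1) - (s - 1) * 1) / (s + 1) ^ 2) s :=
    ((hasDerivAt_id s).sub_const 1).div ((hasDerivAt_id s).add_const 1) h1
  have h3 := (hK _ (cayley_mem hs)).comp s h2
  refine h3.congr_deriv ?_
  have h4 : 1 - (s - 1) / (s + 1) = 2 / (s + 1) := by field_simp; ring
  have h5 : 1 + (s - 1) / (s + 1) = 2 * s / (s + 1) := by field_simp; ring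
  have h6 : (1 + (s - 1) / (s + 1)) / (1 - (s - 1) / (s + 1)) = s := by
    rw [h4, h5]; field_simp
  simp only [hk]
  rw [h6, h4]
  field_simp
  ring

/-- Nonvanishing holomorphic functions on the half plane have logarithms. -/
theorem exists_log {A : ℂ → ℂ} (hA : DifferentiableOn ℂ A HP) (hne : ∀ s ∈ HP, A s ≠ 0) :
    ∃ b : ℂ → ℂ, (∀ s ∈ HP, HasDerivAt b (deriv A s / A s) s) ∧ ∀ s ∈ HP, exp (b s) = A s := by
  have hd : DifferentiableOn ℂ (fun s => deriv A s / A s) HP :=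
    (hA.deriv isOpen_HP).div hA hne
  obtain ⟨b0, hb0⟩ := exists_prim hd
  have h1 : (1 : ℂ) ∈ HP := by change (0 : ℝ) < (1 : ℂ).re; simp
  have hq : ∀ s ∈ HP, HasDerivAt (fun s => A s * exp (-b0 s)) 0 s := by
    intro s hs
    have h2 : HasDerivAt A (deriv A s) s := (hA.differentiableAt (isOpen_HP.mem_nhds hs)).hasDerivAt
    have h3 := h2.mul ((hb0 s hs).neg.cexp)
    refine h3.congr_deriv ?_
    have := hne s hs
    field_simp
    ring
  have hconst : ∀ s ∈ HP, A s * exp (-b0 s) = A 1 * exp (-b0 1) := by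
    intro s hs
    have := convex_HP.norm_image_sub_le_of_norm_hasDerivWithin_le (f := fun s => A s * exp (-b0 s))
      (f' := fun _ => 0) (C := 0) (fun x hx => (hq x hx).hasDerivWithinAt) (by simp) h1 hs
    rw [zero_mul] at this
    exact sub_eq_zero.mp (norm_le_zero_iff.mp this)
  have hc0 : A 1 * exp (-b0 1) ≠ 0 := mul_ne_zero (hne 1 h1) (exp_ne_zero _)
  obtain ⟨κ, hκ⟩ : ∃ κ, exp κ = A 1 * exp (-b0 1) := ⟨log _, exp_log hc0⟩
  refine ⟨fun s => b0 s + κ, fun s hs => (hb0 s hs).add_const κ, fun s hs => ?_⟩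
  rw [exp_add, hκ, ← hconst s hs, exp_neg]
  have := exp_ne_zero (b0 s)
  field_simp

/-- the Bloch type condition -/
structure IsBl (A : ℂ → ℂ) : Prop where
  diff : DifferentiableOn ℂ A HP
  ne : ∀ s ∈ HP, A s ≠ 0
  bd : ∀ s : ℂ, 0 < s.re → s.re ≤ 3 → s.re * ‖deriv A s‖ ≤ 4 * ‖A s‖

theorem IsBl.inv {A : ℂ → ℂ} (hA : IsBl A) : IsBl (fun s => (A s)⁻¹) := by
  refine ⟨hA.diff.inv hA.ne, fun s hs => inv_ne_zero (hA.ne s hs), fun s hs hs3 => ?_⟩
  have h1 : HasDerivAt A (deriv A s) s := (hA.diff.differentiableAt (isOpen_HP.mem_nhds hs)).hasDerivAt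
  have h2 := h1.inv (hA.ne s hs)
  have h3 : deriv (fun s => (A s)⁻¹) s = -deriv A s / A s ^ 2 := h2.deriv
  rw [h3, norm_div, norm_neg, norm_pow, norm_inv]
  have h4 : 0 < ‖A s‖ := norm_pos_iff.mpr (hA.ne s hs)
  have h5 := hA.bd s hs hs3
  rw [← mul_div_assoc, div_le_iff₀ (by positivity)]
  calc s.re * ‖deriv A s‖ ≤ 4 * ‖A s‖ := h5
    _ = 4 * ‖A s‖⁻¹ * ‖A s‖ ^ 2 := by field_simp

end Pool.Agent.TH425.BF
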