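import Mathlib
import Pool.Agent.TH425.BF.B1

set_option autoImplicit false

open Complex Topology Filter Metric MeasureTheory Set

namespace Pool.Agent.TH425.BF

/-- data: a logarithm `b` of a Bloch type function and a primitive `H` of `b` -/
structure Dat (b b' H : ℂ → ℂ) : Prop where
  hb : ∀ s ∈ HP, HasDerivAt b (b' s) s
  bd : ∀ s : ℂ, 0 < s.re → s.re ≤ 3 → s.re * ‖b' s‖ ≤ 4
  hH : ∀ s ∈ HP, HasDerivAt H (b s) s

/-- points of the half plane -/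
def pt (x θ : ℝ) : ℂ := (x : ℂ) + θ * I

theorem pt_re (x θ : ℝ) : (pt x θ).re = x := by simp [pt]

theorem pt_im (x θ : ℝ) : (pt x θ).im = θ := by simp [pt]

theorem pt_mem {x θ : ℝ} (hx : 0 < x) : pt x θ ∈ HP := by
  change 0 < (pt x θ).re
  rw [pt_re]; exact hx

theorem osc_hor {b b' H : ℂ → ℂ} (D : Dat b b' H) {x : ℝ} (hx : 0 < x) (hx3 : x ≤ 3) (θ θ' : ℝ) :
    ‖b (pt x θ') - b (pt x θ)‖ ≤ 4 / x * |θ' - θ| := by
  have h := Convex.norm_image_sub_le_of_norm_hasDerivWithin_le (s := (univ : Set ℝ))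
    (f := fun t : ℝ => b (pt x t)) (f' := fun t => I * b' (pt x t)) (C := 4 / x) (x := θ) (y := θ')
    (fun t _ => by
      apply HasDerivAt.hasDerivWithinAt
      have h1 := D.hb (pt x t) (pt_mem hx)
      have h2 : HasDerivAt (fun t : ℝ => pt x t) I t := by
        have h3 : HasDerivAt (fun t : ℝ => (t : ℂ)) 1 t := Complex.ofRealCLM.hasDerivAt
        have h4 := (h3.mul_const I).const_add (x : ℂ)
        rw [one_mul] at h4
        exact h4
      exact h1.scomp t h2) (by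
      intro t _
      rw [norm_mul, norm_I, one_mul, le_div_iff₀ hx, mul_comm]
      have := D.bd (pt x t) (by rw [pt_re]; exact hx) (by rw [pt_re]; exact hx3)
      rwa [pt_re] at this) convex_univ (mem_univ _) (mem_univ _)
  rwa [Real.norm_eq_abs] at h

theorem osc_ver {b b' H : ℂ → ℂ} (D : Dat b b' H) {t l : ℝ} (ht : 0 < t) (htl : t ≤ l) (hl : l ≤ 3)
    (θ : ℝ) : ‖b (pt t θ) - b (pt l θ)‖ ≤ 4 * Real.log (l / t) := by
  have hl0 : 0 < l := ht.trans_le htl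
  set τ : ℝ := Real.log (l / t) with hτ
  have hτ0 : 0 ≤ τ := Real.log_nonneg (by rw [le_div_iff₀ ht]; linarith)
  set f : ℝ → ℂ := fun u => b (pt (l * Real.exp (-u)) θ) with hf
  have hx : ∀ u, 0 < l * Real.exp (-u) := fun u => mul_pos hl0 (Real.exp_pos _)
  have hd : ∀ u, HasDerivAt f ((-(l * Real.exp (-u)) : ℝ) * b' (pt (l * Real.exp (-u)) θ)) u := by
    intro u
    have h1 := D.hb (pt (l * Real.exp (-u)) θ) (pt_mem (hx u))
    have h2 : HasDerivAt (fun u : ℝ => l * Real.exp (-u)) (-(l * Real.exp (-u))) u := by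
      have h3 := ((hasDerivAt_id u).neg.exp).const_mul l
      simp only [id, Pi.neg_apply] at h3
      refine h3.congr_deriv ?_
      ring
    have h3 : HasDerivAt (fun u : ℝ => pt (l * Real.exp (-u)) θ) ((-(l * Real.exp (-u)) : ℝ) : ℂ) u := by
      have := h2.ofReal_comp.add_const ((θ : ℂ) * I)
      exact this
    exact h1.scomp u h3
  have h := Convex.norm_image_sub_le_of_norm_hasDerivWithin_le (s := Icc (0 : ℝ) τ)
    (f := f) (f' := fun u => (-(l * Real.exp (-u)) : ℝ) * b' (pt (l * Real.exp (-u)) θ)) (C := 4)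
    (x := 0) (y := τ)
    (fun u _ => (hd u).hasDerivWithinAt) (by
      intro u hu
      rw [norm_mul, norm_real, Real.norm_eq_abs, abs_neg, abs_of_pos (hx u)]
      have h1 : l * Real.exp (-u) ≤ 3 := by
        have : Real.exp (-u) ≤ 1 := by
          rw [← Real.exp_zero]; exact Real.exp_le_exp.mpr (by linarith [hu.1])
        nlinarith
      have := D.bd (pt (l * Real.exp (-u)) θ) (by rw [pt_re]; exact hx u) (by rw [pt_re]; exact h1)
      rwa [pt_re] at this) (convex_Icc _ _) (left_mem_Icc.mpr hτ0) (right_mem_Icc.mpr hτ0)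
  have h1 : l * Real.exp (-τ) = t := by
    rw [hτ, Real.exp_neg, Real.exp_log (by positivity)]
    field_simp
  simp only [hf] at h
  rw [h1, neg_zero, Real.exp_zero, mul_one, sub_zero, Real.norm_eq_abs, abs_of_nonneg hτ0] at h
  exact h

/-- increments of the primitive over vertical segments -/
noncomputable def Gm (H : ℂ → ℂ) (θ₀ θ₁ t : ℝ) : ℂ := H (pt t θ₁) - H (pt t θ₀)

theorem Gm_deriv {b b' H : ℂ → ℂ} (D : Dat b b' H) (θ₀ θ₁ : ℝ) {t : ℝ} (ht : 0 < t) :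
    HasDerivAt (Gm H θ₀ θ₁) (b (pt t θ₁) - b (pt t θ₀)) t := by
  have h : ∀ θ : ℝ, HasDerivAt (fun t : ℝ => H (pt t θ)) (b (pt t θ)) t := by
    intro θ
    have h1 := D.hH (pt t θ) (pt_mem ht)
    have h2 : HasDerivAt (fun t : ℝ => pt t θ) 1 t := by
      have h3 : HasDerivAt (fun t : ℝ => (t : ℂ)) 1 t := Complex.ofRealCLM.hasDerivAt
      exact h3.add_const _
    have h3 := h1.scomp t h2
    rw [one_smul] at h3
    exact h3
  exact (h θ₁).sub (h θ₀)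

theorem Gm_bound {b b' H : ℂ → ℂ} (D : Dat b b' H) {θ₀ θ₁ l : ℝ} (hl : 0 < l) (hl3 : l ≤ 3)
    (hθ : |θ₁ - θ₀| ≤ l) {t : ℝ} (ht : 0 < t) (htl : t ≤ l) :
    ‖b (pt t θ₁) - b (pt t θ₀)‖ ≤ 16 * Real.sqrt l / Real.sqrt t := by
  have h1 := osc_ver D ht htl hl3 θ₁
  have h2 := osc_ver D ht htl hl3 θ₀
  have h3 := osc_hor D hl hl3 θ₀ θ₁
  have h4 : 4 / l * |θ₁ - θ₀| ≤ 4 := by
    calc 4 / l * |θ₁ - θ₀| ≤ 4 / l * l := by gcongr
      _ = 4 := by field_simp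
  have h5 : b (pt t θ₁) - b (pt t θ₀) = (b (pt t θ₁) - b (pt l θ₁)) +
      (b (pt l θ₁) - b (pt l θ₀)) - (b (pt t θ₀) - b (pt l θ₀)) := by ring
  have h6 : ‖b (pt t θ₁) - b (pt t θ₀)‖ ≤ 8 * Real.log (l / t) + 4 := by
    rw [h5]
    refine (norm_sub_le _ _).trans ?_
    have := norm_add_le (b (pt t θ₁) - b (pt l θ₁)) (b (pt l θ₁) - b (pt l θ₀))
    linarith
  refine h6.trans ?_
  rw [mul_div_assoc, ← Real.sqrt_div hl.le]
  set y := l / t with hy
  have hy1 : 1 ≤ y := by rw [hy, le_div_iff₀ ht]; linarith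
  have hs : 1 ≤ Real.sqrt y := Real.one_le_sqrt.mpr hy1
  have h7 : Real.log y = 2 * Real.log (Real.sqrt y) := by
    rw [Real.log_sqrt (by linarith)]; ring
  have h8 : Real.log (Real.sqrt y) ≤ Real.sqrt y - 1 := Real.log_le_sub_one_of_pos (by linarith)
  rw [h7]
  linarith

theorem Gm_diff {b b' H : ℂ → ℂ} (D : Dat b b' H) {θ₀ θ₁ l : ℝ} (hl : 0 < l) (hl3 : l ≤ 3)
    (hθ : |θ₁ - θ₀| ≤ l) {t t' : ℝ} (ht' : 0 < t') (htt : t' ≤ t) (htl : t ≤ l) :
    ‖Gm H θ₀ θ₁ t - Gm H θ₀ θ₁ t'‖ ≤ 32 * Real.sqrt l * (Real.sqrt t - Real.sqrt t') := by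
  have h := image_norm_le_of_norm_deriv_right_le_deriv_boundary' (a := t') (b := t)
    (f := fun x => Gm H θ₀ θ₁ x - Gm H θ₀ θ₁ t') (f' := fun x => b (pt x θ₁) - b (pt x θ₀))
    (B := fun x => 32 * Real.sqrt l * (Real.sqrt x - Real.sqrt t'))
    (B' := fun x => 32 * Real.sqrt l * (1 / (2 * Real.sqrt x))) ?_ ?_ (by simp) ?_ ?_ ?_
    (right_mem_Icc.mpr htt)
  · exact h
  · intro x hx
    exact ((Gm_deriv D θ₀ θ₁ (ht'.trans_le hx.1)).sub_const _).continuousAt.continuousWithinAt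
  · intro x hx
    exact ((Gm_deriv D θ₀ θ₁ (ht'.trans_le hx.1)).sub_const _).hasDerivWithinAt
  · exact (by fun_prop : Continuous fun x => 32 * Real.sqrt l * (Real.sqrt x - Real.sqrt t')).continuousOn
  · intro x hx
    have hx0 : 0 < x := ht'.trans_le hx.1
    exact (((Real.hasDerivAt_sqrt hx0.ne').sub_const _).const_mul _).hasDerivWithinAt
  · intro x hx
    have hx0 : 0 < x := ht'.trans_le hx.1
    refine (Gm_bound D hl hl3 hθ hx0 (hx.2.le.trans htl)).trans (le_of_eq ?_)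
    have : 0 < Real.sqrt x := Real.sqrt_pos.mpr hx0
    field_simp
    ring

/-- boundary increments of the primitive -/
noncomputable def Db (H : ℂ → ℂ) (θ₀ θ₁ : ℝ) : ℂ := limUnder (𝓝[>] (0 : ℝ)) (Gm H θ₀ θ₁)

theorem Db_spec {b b' H : ℂ → ℂ} (D : Dat b b' H) {θ₀ θ₁ l : ℝ} (hl : 0 < l) (hl3 : l ≤ 3)
    (hθ : |θ₁ - θ₀| ≤ l) : Tendsto (Gm H θ₀ θ₁) (𝓝[>] 0) (𝓝 (Db H θ₀ θ₁)) ∧
      ∀ t, 0 < t → t ≤ l → ‖Gm H θ₀ θ₁ t - Db H θ₀ θ₁‖ ≤ 32 * Real.sqrt l * Real.sqrt t := by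
  have hlip : ∀ t t' : ℝ, 0 < t' → t' ≤ t → t ≤ l →
      ‖Gm H θ₀ θ₁ t - Gm H θ₀ θ₁ t'‖ ≤ 32 * Real.sqrt l * Real.sqrt t := by
    intro t t' h1 h2 h3
    refine (Gm_diff D hl hl3 hθ h1 h2 h3).trans ?_
    have := Real.sqrt_nonneg t'
    have := Real.sqrt_nonneg l
    gcongr
    linarith
  have hcau : Cauchy (map (Gm H θ₀ θ₁) (𝓝[>] 0)) := by
    rw [Metric.cauchy_iff]
    refine ⟨inferInstance, fun δ hδ => ?_⟩
    have h1 : Tendsto (fun x : ℝ => 32 * Real.sqrt l * Real.sqrt x) (𝓝[>] 0) (𝓝 0) := by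
      have : Continuous fun x : ℝ => 32 * Real.sqrt l * Real.sqrt x := by fun_prop
      have h2 := (this.tendsto 0).mono_left (nhdsWithin_le_nhds : 𝓝[>] (0 : ℝ) ≤ 𝓝 0)
      simpa using h2
    have h2 : ∀ᶠ x : ℝ in 𝓝[>] 0, 32 * Real.sqrt l * Real.sqrt x < δ / 2 :=
      h1.eventually (gt_mem_nhds (by linarith))
    obtain ⟨m, hm0, hm⟩ := (mem_nhdsGT_iff_exists_Ioo_subset).mp h2
    set m' : ℝ := min m l with hm'
    have hm'0 : 0 < m' := lt_min hm0 hl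
    set y : ℝ := m' / 2 with hy
    have hy0 : 0 < y := by positivity
    have hym : y < m := by
      have := min_le_left m l
      rw [hy]; linarith
    have hyl : y ≤ l := by
      have := min_le_right m l
      rw [hy]; linarith
    refine ⟨Gm H θ₀ θ₁ '' Ioc 0 y, image_mem_map (Ioc_mem_nhdsGT hy0), ?_⟩
    rintro _ ⟨x, hx, rfl⟩ _ ⟨z, hz, rfl⟩
    have h3 := hlip y x hx.1 hx.2 hyl
    have h4 := hlip y z hz.1 hz.2 hyl
    have h5 : 32 * Real.sqrt l * Real.sqrt y < δ / 2 := hm ⟨hy0, hym⟩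
    rw [dist_eq_norm]
    have h6 : Gm H θ₀ θ₁ x - Gm H θ₀ θ₁ z = (Gm H θ₀ θ₁ y - Gm H θ₀ θ₁ z) -
        (Gm H θ₀ θ₁ y - Gm H θ₀ θ₁ x) := by ring
    rw [h6]
    exact (norm_sub_le _ _).trans_lt (by linarith)
  obtain ⟨c, hc⟩ := CompleteSpace.complete hcau
  have hc' : Tendsto (Gm H θ₀ θ₁) (𝓝[>] 0) (𝓝 c) := hc
  have hDc : Db H θ₀ θ₁ = c := hc'.limUnder_eq
  rw [hDc]
  refine ⟨hc', fun t ht htl => ?_⟩
  refine le_of_tendsto (hc'.const_sub (Gm H θ₀ θ₁ t)).norm ?_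
  filter_upwards [Ioo_mem_nhdsGT ht] with x hx
  exact hlip t x hx.1 hx.2.le htl

theorem Db_add {b b' H : ℂ → ℂ} (D : Dat b b' H) {θ₀ θ₁ θ₂ : ℝ} (h01 : |θ₁ - θ₀| ≤ 3)
    (h12 : |θ₂ - θ₁| ≤ 3) (h02 : |θ₂ - θ₀| ≤ 3) : Db H θ₀ θ₂ = Db H θ₀ θ₁ + Db H θ₁ θ₂ := by
  have h1 := (Db_spec D (by norm_num : (0 : ℝ) < 3) le_rfl h01).1
  have h2 := (Db_spec D (by norm_num : (0 : ℝ) < 3) le_rfl h12).1
  have h3 := (Db_spec D (by norm_num : (0 : ℝ) < 3) le_rfl h02).1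
  refine tendsto_nhds_unique h3 ((h1.add h2).congr fun t => ?_)
  unfold Gm; ring

/-- general comparison of the boundary average with the value of `b` -/
theorem Db_window {b b' H : ℂ → ℂ} (D : Dat b b' H) {θ₀ θ₁ l : ℝ} (hl : 0 < l) (hl3 : l ≤ 3)
    (hθ : θ₁ - θ₀ = l) {τ ε : ℝ} (hτ : 0 < τ) (hτ1 : τ ≤ 1) {θ : ℝ}
    (hwin : ∀ t, τ * l ≤ t → t ≤ l → ∀ θ', θ₀ ≤ θ' → θ' ≤ θ₁ →
      ‖b (pt t θ') - b (pt l θ)‖ ≤ ε) :
    ‖Db H θ₀ θ₁ - b (pt l θ) * (l * I)‖ ≤ (3 * ε + 32 * Real.sqrt τ) * l := by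
  have hθa : |θ₁ - θ₀| ≤ l := by rw [hθ, abs_of_pos hl]
  have h01 : θ₀ ≤ θ₁ := by linarith
  -- horizontal comparison at height l
  have h1 : ‖Gm H θ₀ θ₁ l - b (pt l θ) * (l * I)‖ ≤ ε * l := by
    have h := Convex.norm_image_sub_le_of_norm_hasDerivWithin_le (s := Icc θ₀ θ₁)
      (f := fun t : ℝ => H (pt l t) - b (pt l θ) * (t * I))
      (f' := fun t => I * b (pt l t) - b (pt l θ) * (1 * I)) (C := ε) (x := θ₀) (y := θ₁)
      (fun t _ => by
        apply HasDerivAt.hasDerivWithinAt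
        have h1 := D.hH (pt l t) (pt_mem hl)
        have h3 : HasDerivAt (fun t : ℝ => (t : ℂ)) 1 t := Complex.ofRealCLM.hasDerivAt
        have h2 : HasDerivAt (fun t : ℝ => pt l t) I t := by
          have h4 := (h3.mul_const I).const_add (l : ℂ)
          rw [one_mul] at h4
          exact h4
        have h5 := h1.scomp t h2
        exact h5.sub ((h3.mul_const I).const_mul (b (pt l θ)))) (by
        intro t ht
        have h2 : I * b (pt l t) - b (pt l θ) * (1 * I) = I * (b (pt l t) - b (pt l θ)) := by ring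
        rw [h2, norm_mul, norm_I, one_mul]
        exact hwin l (by nlinarith) le_rfl t ht.1 ht.2) (convex_Icc _ _)
        (left_mem_Icc.mpr h01) (right_mem_Icc.mpr h01)
    rw [Real.norm_eq_abs, hθ, abs_of_pos hl] at h
    refine le_trans (le_of_eq ?_) h
    congr 1
    unfold Gm
    have : (l : ℂ) = θ₁ - θ₀ := by rw [← hθ]; push_cast; ring
    rw [this]; ring
  -- vertical comparison
  have hτl : 0 < τ * l := by positivity
  have hτll : τ * l ≤ l := by nlinarith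
  have hε : 0 ≤ ε := (norm_nonneg _).trans (hwin l hτll le_rfl θ₀ le_rfl h01)
  have h2 : ‖Gm H θ₀ θ₁ l - Gm H θ₀ θ₁ (τ * l)‖ ≤ 2 * ε * l := by
    have h := Convex.norm_image_sub_le_of_norm_hasDerivWithin_le (s := Icc (τ * l) l)
      (f := Gm H θ₀ θ₁) (f' := fun t => b (pt t θ₁) - b (pt t θ₀)) (C := 2 * ε)
      (x := τ * l) (y := l)
      (fun t ht => (Gm_deriv D θ₀ θ₁ (hτl.trans_le ht.1)).hasDerivWithinAt) (by
        intro t ht
        have e1 := hwin t ht.1 ht.2 θ₁ h01 le_rfl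
        have e0 := hwin t ht.1 ht.2 θ₀ le_rfl h01
        have : b (pt t θ₁) - b (pt t θ₀) = (b (pt t θ₁) - b (pt l θ)) - (b (pt t θ₀) - b (pt l θ)) := by
          ring
        rw [this]
        exact (norm_sub_le _ _).trans (by linarith)) (convex_Icc _ _)
        (left_mem_Icc.mpr hτll) (right_mem_Icc.mpr hτll)
    refine h.trans ?_
    rw [Real.norm_eq_abs, abs_of_nonneg (by linarith)]
    nlinarith
  have h3 := (Db_spec D hl hl3 hθa).2 (τ * l) hτl hτll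
  have h4 : 32 * Real.sqrt l * Real.sqrt (τ * l) = 32 * Real.sqrt τ * l := by
    rw [Real.sqrt_mul hτ.le]
    have := Real.mul_self_sqrt hl.le
    linear_combination (32 * Real.sqrt τ) * this
  rw [h4] at h3
  have h5 : Db H θ₀ θ₁ - b (pt l θ) * (l * I) = (Gm H θ₀ θ₁ l - b (pt l θ) * (l * I)) -
      (Gm H θ₀ θ₁ l - Gm H θ₀ θ₁ (τ * l)) - (Gm H θ₀ θ₁ (τ * l) - Db H θ₀ θ₁) := by ring
  rw [h5]
  refine (norm_sub_le _ _).trans ?_
  have := norm_sub_le (Gm H θ₀ θ₁ l - b (pt l θ) * (l * I)) (Gm H θ₀ θ₁ l - Gm H θ₀ θ₁ (τ * l))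
  linarith

/-- the boundary average is within a constant of the value at the corresponding height -/
theorem Db_coarse {b b' H : ℂ → ℂ} (D : Dat b b' H) {θ₀ θ₁ l : ℝ} (hl : 0 < l) (hl3 : l ≤ 3)
    (hθ : θ₁ - θ₀ = l) {θ : ℝ} (h0 : θ₀ ≤ θ) (h1 : θ ≤ θ₁) :
    ‖Db H θ₀ θ₁ - b (pt l θ) * (l * I)‖ ≤ 44 * l := by
  have h := Db_window D hl hl3 hθ (τ := 1) (ε := 4) one_pos le_rfl (θ := θ) (by
    intro t ht1 ht2 θ' h2 h3
    have ht : t = l := by linarith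
    rw [ht]
    refine (osc_hor D hl hl3 θ θ').trans ?_
    have : |θ' - θ| ≤ l := by rw [abs_le]; constructor <;> linarith
    calc 4 / l * |θ' - θ| ≤ 4 / l * l := by gcongr
      _ = 4 := by field_simp)
  rw [Real.sqrt_one] at h
  linarith

end Pool.Agent.TH425.BF
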