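import Mathlib
import Pool.Agent.TH425.BF.B2

set_option autoImplicit false

open Complex Topology Filter Metric MeasureTheory Set

namespace Pool.Agent.TH425.BF

/-- dyadic boundary averages of the real part -/
noncomputable def sg (H : ℂ → ℂ) (n : ℕ) (k : ℤ) : ℝ :=
  (Db H (k / 2 ^ n) ((k + 1) / 2 ^ n)).im * 2 ^ n

/-- the dyadic martingale -/
noncomputable def mf (H : ℂ → ℂ) (n : ℕ) (θ : ℝ) : ℝ := sg H n ⌊2 ^ n * θ⌋

theorem sg_add {b b' H : ℂ → ℂ} (D : Dat b b' H) (n : ℕ) (k : ℤ) :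
    sg H n k = (sg H (n + 1) (2 * k) + sg H (n + 1) (2 * k + 1)) / 2 := by
  have h2 : (0 : ℝ) < 2 ^ n := by positivity
  have h2' : (1 : ℝ) ≤ 2 ^ n := one_le_pow₀ (by norm_num)
  have e0 : ((2 * k : ℤ) : ℝ) / 2 ^ (n + 1) = k / 2 ^ n := by push_cast; field_simp; ring
  have e1 : (((2 * k : ℤ) : ℝ) + 1) / 2 ^ (n + 1) = (2 * k + 1) / 2 ^ (n + 1) := by push_cast; rfl
  have e2 : ((2 * k + 1 : ℤ) : ℝ) / 2 ^ (n + 1) = (2 * k + 1) / 2 ^ (n + 1) := by push_cast; rfl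
  have e3 : (((2 * k + 1 : ℤ) : ℝ) + 1) / 2 ^ (n + 1) = (k + 1) / 2 ^ n := by
    push_cast; field_simp; ring
  unfold sg
  rw [e0, e1, e2, e3]
  have hadd := Db_add D (θ₀ := (k : ℝ) / 2 ^ n) (θ₁ := (2 * (k : ℝ) + 1) / 2 ^ (n + 1))
    (θ₂ := ((k : ℝ) + 1) / 2 ^ n) ?_ ?_ ?_
  · rw [hadd, add_im, pow_succ]; ring
  · have : (2 * (k : ℝ) + 1) / 2 ^ (n + 1) - (k : ℝ) / 2 ^ n = 1 / 2 ^ (n + 1) := by
      field_simp; ring
    rw [this, abs_of_pos (by positivity), div_le_iff₀ (by positivity), pow_succ]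
    linarith
  · have : ((k : ℝ) + 1) / 2 ^ n - (2 * (k : ℝ) + 1) / 2 ^ (n + 1) = 1 / 2 ^ (n + 1) := by
      field_simp; ring
    rw [this, abs_of_pos (by positivity), div_le_iff₀ (by positivity), pow_succ]
    linarith
  · have : ((k : ℝ) + 1) / 2 ^ n - (k : ℝ) / 2 ^ n = 1 / 2 ^ n := by
      field_simp; ring
    rw [this, abs_of_pos (by positivity), div_le_iff₀ (by positivity)]
    linarith

theorem mf_close {b b' H : ℂ → ℂ} (D : Dat b b' H) (n : ℕ) (θ : ℝ) :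
    |mf H n θ - (b (pt (1 / 2 ^ n) θ)).re| ≤ 44 := by
  have h2 : (0 : ℝ) < 2 ^ n := by positivity
  have h2' : (1 : ℝ) ≤ 2 ^ n := one_le_pow₀ (by norm_num)
  set k : ℤ := ⌊2 ^ n * θ⌋ with hk
  have hk0 : (k : ℝ) / 2 ^ n ≤ θ := by
    rw [div_le_iff₀ h2, mul_comm]; exact Int.floor_le _
  have hk1 : θ ≤ ((k : ℝ) + 1) / 2 ^ n := by
    rw [le_div_iff₀ h2, mul_comm]; exact (Int.lt_floor_add_one _).le
  have h := Db_coarse D (l := 1 / 2 ^ n) (θ₀ := (k : ℝ) / 2 ^ n) (θ₁ := ((k : ℝ) + 1) / 2 ^ n)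
    (by positivity) (by rw [div_le_iff₀ h2]; linarith) (by field_simp; ring) hk0 hk1
  have h1 := (Complex.abs_im_le_norm _).trans h
  have h3 : (Db H ((k : ℝ) / 2 ^ n) (((k : ℝ) + 1) / 2 ^ n) -
      b (pt (1 / 2 ^ n) θ) * (((1 / 2 ^ n : ℝ) : ℂ) * I)).im =
      (Db H ((k : ℝ) / 2 ^ n) (((k : ℝ) + 1) / 2 ^ n)).im - (b (pt (1 / 2 ^ n) θ)).re * (1 / 2 ^ n) := by
    have : b (pt (1 / 2 ^ n) θ) * (((1 / 2 ^ n : ℝ) : ℂ) * I) =
        ((1 / 2 ^ n : ℝ) : ℂ) * (b (pt (1 / 2 ^ n) θ) * I) := by ring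
    rw [sub_im, this, im_ofReal_mul, mul_I_im]
    ring
  rw [h3] at h1
  have h4 : mf H n θ - (b (pt (1 / 2 ^ n) θ)).re =
      ((Db H ((k : ℝ) / 2 ^ n) (((k : ℝ) + 1) / 2 ^ n)).im -
        (b (pt (1 / 2 ^ n) θ)).re * (1 / 2 ^ n)) * 2 ^ n := by
    unfold mf sg
    rw [← hk]
    field_simp
  rw [h4, abs_mul, abs_of_pos h2]
  have h5 := mul_le_mul_of_nonneg_right h1 h2.le
  refine h5.trans (le_of_eq ?_)
  field_simp

theorem mf_step {b b' H : ℂ → ℂ} (D : Dat b b' H) (n : ℕ) (θ : ℝ) :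
    |mf H (n + 1) θ - mf H n θ| ≤ 92 := by
  have h2 : (0 : ℝ) < 2 ^ n := by positivity
  have h2' : (1 : ℝ) ≤ 2 ^ n := one_le_pow₀ (by norm_num)
  have h0 := mf_close D n θ
  have h1 := mf_close D (n + 1) θ
  have h3 := osc_ver D (t := 1 / 2 ^ (n + 1)) (l := 1 / 2 ^ n) (by positivity) (by
    apply one_div_le_one_div_of_le h2
    rw [pow_succ]; linarith) (by rw [div_le_iff₀ h2]; linarith) θ
  have h4 : (1 / 2 ^ n : ℝ) / (1 / 2 ^ (n + 1)) = 2 := by rw [pow_succ]; field_simp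
  rw [h4] at h3
  have h5 : Real.log 2 < 1 := by
    have := Real.log_two_lt_d9
    linarith
  have h6 : |(b (pt (1 / 2 ^ (n + 1)) θ)).re - (b (pt (1 / 2 ^ n) θ)).re| ≤ 4 := by
    rw [← sub_re]
    exact (Complex.abs_re_le_norm _).trans (by linarith)
  rw [abs_le] at *
  constructor <;> linarith [h0.1, h0.2, h1.1, h1.2, h6.1, h6.2]

theorem floor_half (n : ℕ) (θ : ℝ) : ⌊(2 : ℝ) ^ n * θ⌋ = ⌊(2 : ℝ) ^ (n + 1) * θ⌋ / 2 := by
  set k : ℤ := ⌊(2 : ℝ) ^ (n + 1) * θ⌋ with hk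
  have h0 : (k : ℝ) ≤ 2 ^ (n + 1) * θ := Int.floor_le _
  have h1 : 2 ^ (n + 1) * θ < (k : ℝ) + 1 := Int.lt_floor_add_one _
  have h2 := Int.mul_ediv_add_emod k 2
  have h3 := Int.emod_nonneg k (by norm_num : (2 : ℤ) ≠ 0)
  have h4 := Int.emod_lt_of_pos k (by norm_num : (0 : ℤ) < 2)
  rw [Int.floor_eq_iff]
  have h5 : (k : ℝ) = 2 * ((k / 2 : ℤ) : ℝ) + ((k % 2 : ℤ) : ℝ) := by exact_mod_cast h2.symm
  have h6 : (0 : ℝ) ≤ ((k % 2 : ℤ) : ℝ) := by exact_mod_cast h3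
  have h7 : ((k % 2 : ℤ) : ℝ) ≤ 1 := by exact_mod_cast (by omega : k % 2 ≤ 1)
  rw [pow_succ] at h0 h1
  constructor <;> linarith

/-- the dyadic filtration -/
noncomputable def Fil : Filtration ℕ (inferInstance : MeasurableSpace ℝ) where
  seq n := MeasurableSpace.comap (fun θ : ℝ => ⌊(2 : ℝ) ^ n * θ⌋) ⊤
  mono' := by
    apply monotone_nat_of_le_succ
    intro n s hs
    obtain ⟨A, _, rfl⟩ := hs
    refine ⟨{k : ℤ | k / 2 ∈ A}, trivial, ?_⟩
    ext θ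
    simp only [mem_preimage, mem_ofPred_eq]
    rw [floor_half n θ]
  le' n := by
    rw [← measurable_iff_comap_le]
    have h1 : Measurable fun θ : ℝ => (2 : ℝ) ^ n * θ := by fun_prop
    exact h1.floor

theorem mf_adapted (H : ℂ → ℂ) : StronglyAdapted Fil (mf H) := by
  intro n
  have h1 : Measurable[Fil n] (fun θ : ℝ => ⌊(2 : ℝ) ^ n * θ⌋) := by
    exact comap_measurable _
  have h2 : Measurable (sg H n) := measurable_from_top
  exact (h2.comp h1).stronglyMeasurable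

/-- dyadic intervals -/
def Jn (n : ℕ) (k : ℤ) : Set ℝ := Ico ((k : ℝ) / 2 ^ n) (((k : ℝ) + 1) / 2 ^ n)

theorem mem_Jn {n : ℕ} {k : ℤ} {θ : ℝ} : θ ∈ Jn n k ↔ ⌊(2 : ℝ) ^ n * θ⌋ = k := by
  have h2 : (0 : ℝ) < 2 ^ n := by positivity
  unfold Jn
  rw [mem_Ico, div_le_iff₀ h2, lt_div_iff₀ h2, Int.floor_eq_iff, mul_comm θ]

theorem mf_bounded {b b' H : ℂ → ℂ} (D : Dat b b' H) (n : ℕ) (p : ℤ) :
    ∃ C : ℝ, ∀ θ ∈ Ico (p : ℝ) (p + 1), |mf H n θ| ≤ C := by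
  have h2 : (0 : ℝ) < 2 ^ n := by positivity
  have h2' : (1 : ℝ) ≤ 2 ^ n := one_le_pow₀ (by norm_num)
  refine ⟨44 + 4 / (1 / 2 ^ n) + |(b (pt (1 / 2 ^ n) p)).re|, fun θ hθ => ?_⟩
  have h0 := mf_close D n θ
  have h1 := osc_hor D (x := 1 / 2 ^ n) (by positivity) (by rw [div_le_iff₀ h2]; linarith) p θ
  have h3 : |θ - p| ≤ 1 := by
    rw [abs_le]; constructor <;> linarith [hθ.1, hθ.2]
  have h4 : |(b (pt (1 / 2 ^ n) θ)).re - (b (pt (1 / 2 ^ n) p)).re| ≤ 4 / (1 / 2 ^ n) := by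
    rw [← sub_re]
    refine (Complex.abs_re_le_norm _).trans (h1.trans ?_)
    have h5 : (0 : ℝ) ≤ 4 / (1 / 2 ^ n) := by positivity
    nlinarith
  have h6 : mf H n θ = (mf H n θ - (b (pt (1 / 2 ^ n) θ)).re) +
      ((b (pt (1 / 2 ^ n) θ)).re - (b (pt (1 / 2 ^ n) p)).re) + (b (pt (1 / 2 ^ n) p)).re := by ring
  rw [h6]
  refine (abs_add_le _ _).trans ?_
  have := abs_add_le (mf H n θ - (b (pt (1 / 2 ^ n) θ)).re)
    ((b (pt (1 / 2 ^ n) θ)).re - (b (pt (1 / 2 ^ n) p)).re)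
  linarith

theorem mf_meas (H : ℂ → ℂ) (n : ℕ) : Measurable (mf H n) :=
  ((mf_adapted H n).measurable).mono (Fil.le n) le_rfl

theorem mf_intOn {b b' H : ℂ → ℂ} (D : Dat b b' H) (n : ℕ) (p : ℤ) :
    IntegrableOn (mf H n) (Ico (p : ℝ) (p + 1)) := by
  obtain ⟨C, hC⟩ := mf_bounded D n p
  apply Measure.integrableOn_of_bounded (M := C) (by simp) (mf_meas H n).aestronglyMeasurable
  rw [ae_restrict_iff' measurableSet_Ico]
  exact Eventually.of_forall hC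

theorem Jn_sub {n : ℕ} {p k : ℤ} (hk : 2 ^ n * p ≤ k) (hk2 : k < 2 ^ n * (p + 1)) :
    Jn n k ⊆ Ico (p : ℝ) (p + 1) := by
  have h2 : (0 : ℝ) < 2 ^ n := by positivity
  intro θ hθ
  have h1 : ((2 : ℝ) ^ n * p) ≤ k := by exact_mod_cast hk
  have h3 : ((k : ℝ) + 1) ≤ 2 ^ n * (p + 1) := by exact_mod_cast (Int.add_one_le_iff.mpr hk2)
  obtain ⟨h4, h5⟩ := hθ
  rw [div_le_iff₀ h2] at h4
  rw [lt_div_iff₀ h2] at h5
  constructor
  · by_contra h
    nlinarith [not_le.mp h]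
  · by_contra h
    nlinarith [not_lt.mp h]

theorem int_Jn (H : ℂ → ℂ) (n : ℕ) (k : ℤ) : ∫ θ in Jn n k, mf H n θ = sg H n k / 2 ^ n := by
  have h2 : (0 : ℝ) < 2 ^ n := by positivity
  have h1 : ∫ θ in Jn n k, mf H n θ = ∫ _ in Jn n k, sg H n k := by
    apply setIntegral_congr_fun measurableSet_Ico
    intro θ hθ
    unfold mf
    rw [mem_Jn.mp hθ]
  rw [h1, setIntegral_const]
  have h3 : (volume : Measure ℝ).real (Jn n k) = 1 / 2 ^ n := by
    unfold Jn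
    rw [Measure.real, Real.volume_Ico, ENNReal.toReal_ofReal]
    · field_simp; ring
    · rw [← sub_div]
      apply div_nonneg _ h2.le
      linarith
  rw [h3, smul_eq_mul]
  ring

theorem Jn_split (n : ℕ) (k : ℤ) : Jn n k = Jn (n + 1) (2 * k) ∪ Jn (n + 1) (2 * k + 1) := by
  ext θ
  rw [mem_union, mem_Jn, mem_Jn, mem_Jn, floor_half n θ]
  omega

theorem int_Jn_succ {b b' H : ℂ → ℂ} (D : Dat b b' H) {n : ℕ} {p k : ℤ} (hk : 2 ^ n * p ≤ k)
    (hk2 : k < 2 ^ n * (p + 1)) : ∫ θ in Jn n k, mf H (n + 1) θ = sg H n k / 2 ^ n := by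
  have hI := mf_intOn D (n + 1) p
  have hs := Jn_sub hk hk2
  have hs1 : Jn (n + 1) (2 * k) ⊆ Jn n k := by rw [Jn_split n k]; exact subset_union_left
  have hs2 : Jn (n + 1) (2 * k + 1) ⊆ Jn n k := by rw [Jn_split n k]; exact subset_union_right
  have hdis : Disjoint (Jn (n + 1) (2 * k)) (Jn (n + 1) (2 * k + 1)) := by
    rw [Set.disjoint_left]
    intro θ h1 h2
    rw [mem_Jn] at h1 h2
    omega
  rw [Jn_split n k, setIntegral_union hdis measurableSet_Ico (hI.mono_set (hs1.trans hs))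
    (hI.mono_set (hs2.trans hs)), int_Jn, int_Jn, sg_add D n k, pow_succ]
  field_simp

theorem mf_martingale {b b' H : ℂ → ℂ} (D : Dat b b' H) (p : ℤ) :
    Martingale (mf H) Fil (volume.restrict (Ico (p : ℝ) (p + 1))) := by
  classical
  have : IsFiniteMeasure ((volume : Measure ℝ).restrict (Ico (p : ℝ) (p + 1))) :=
    ⟨by rw [Measure.restrict_apply_univ, Real.volume_Ico]; exact ENNReal.ofReal_lt_top⟩
  apply martingale_of_setIntegral_eq_succ (mf_adapted H) (fun n => mf_intOn D n p)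
  intro n s hs
  obtain ⟨A, _, rfl⟩ := hs
  set t : Finset ℤ := (Finset.Ico (2 ^ n * p) (2 ^ n * (p + 1))).filter (· ∈ A) with ht
  have hms : MeasurableSet ((fun θ : ℝ => ⌊(2 : ℝ) ^ n * θ⌋) ⁻¹' A) := by
    have h1 : Measurable fun θ : ℝ => ⌊(2 : ℝ) ^ n * θ⌋ := by
      have h1 : Measurable fun θ : ℝ => (2 : ℝ) ^ n * θ := by fun_prop
      exact h1.floor
    exact h1 trivial
  have hset : ((fun θ : ℝ => ⌊(2 : ℝ) ^ n * θ⌋) ⁻¹' A) ∩ Ico (p : ℝ) (p + 1) = ⋃ k ∈ t, Jn n k := by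
    ext θ
    simp only [mem_inter_iff, mem_preimage, mem_iUnion, mem_Jn, ht, Finset.mem_filter,
      Finset.mem_Ico, exists_prop]
    have h2 : (0 : ℝ) < 2 ^ n := by positivity
    constructor
    · rintro ⟨h1, h3, h4⟩
      refine ⟨_, ⟨⟨?_, ?_⟩, h1⟩, rfl⟩
      · rw [Int.le_floor]
        push_cast
        gcongr
      · rw [Int.floor_lt]
        push_cast
        gcongr
    · rintro ⟨k, ⟨⟨h1, h3⟩, h4⟩, h5⟩
      refine ⟨by rw [h5]; exact h4, Jn_sub h1 h3 (mem_Jn.mpr h5)⟩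
  have hpw : (t : Set ℤ).Pairwise (Function.onFun Disjoint (Jn n)) := by
    intro i _ j _ hij
    rw [Function.onFun, Set.disjoint_left]
    intro θ h1 h2
    rw [mem_Jn] at h1 h2
    exact hij (h1.symm.trans h2)
  have hmem : ∀ k ∈ t, 2 ^ n * p ≤ k ∧ k < 2 ^ n * (p + 1) := by
    intro k hk
    have := (Finset.mem_filter.mp hk).1
    exact Finset.mem_Ico.mp this
  rw [Measure.restrict_restrict hms, hset,
    integral_biUnion_finset (s := Jn n) t (fun k _ => measurableSet_Ico) hpw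
      (fun k hk => (mf_intOn D n p).mono_set (Jn_sub (hmem k hk).1 (hmem k hk).2)),
    integral_biUnion_finset (s := Jn n) t (fun k _ => measurableSet_Ico) hpw
      (fun k hk => (mf_intOn D (n + 1) p).mono_set (Jn_sub (hmem k hk).1 (hmem k hk).2))]
  apply Finset.sum_congr rfl
  intro k hk
  rw [int_Jn, int_Jn_succ D (hmem k hk).1 (hmem k hk).2]

/-- Almost everywhere the martingale is bounded on one side iff it converges. -/
theorem mf_conv {b b' H : ℂ → ℂ} (D : Dat b b' H) :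
    ∀ᵐ θ : ℝ, (BddAbove (range fun n => mf H n θ) ∨ BddBelow (range fun n => mf H n θ)) →
      ∃ c, Tendsto (fun n => mf H n θ) atTop (𝓝 c) := by
  have hp : ∀ p : ℤ, ∀ᵐ θ : ℝ, θ ∈ Ico (p : ℝ) (p + 1) →
      (BddAbove (range fun n => mf H n θ) ∨ BddBelow (range fun n => mf H n θ)) →
      ∃ c, Tendsto (fun n => mf H n θ) atTop (𝓝 c) := by
    intro p
    have : IsFiniteMeasure ((volume : Measure ℝ).restrict (Ico (p : ℝ) (p + 1))) :=
      ⟨by rw [Measure.restrict_apply_univ, Real.volume_Ico]; exact ENNReal.ofReal_lt_top⟩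
    have hb : ∀ᵐ θ ∂((volume : Measure ℝ).restrict (Ico (p : ℝ) (p + 1))), ∀ i,
        |mf H (i + 1) θ - mf H i θ| ≤ ((92 : NNReal) : ℝ) := by
      refine Eventually.of_forall fun θ i => ?_
      exact mf_step D i θ
    have h1 := (mf_martingale D p).bddAbove_range_iff_bddBelow_range hb
    have h2 := (mf_martingale D p).submartingale.bddAbove_iff_exists_tendsto hb
    rw [← ae_restrict_iff' measurableSet_Ico]
    filter_upwards [h1, h2] with θ h3 h4 h5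
    rcases h5 with h5 | h5
    · exact h4.mp h5
    · exact h4.mp (h3.mpr h5)
  have hall := ae_all_iff.mpr hp
  filter_upwards [hall] with θ hθ
  exact hθ ⌊θ⌋ ⟨Int.floor_le _, Int.lt_floor_add_one _⟩

end Pool.Agent.TH425.BF
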