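import Mathlib
import Pool.Agent.TH425.BF.B1
import Pool.Agent.Helper114.MontelSol

set_option autoImplicit false

open Complex Topology Filter Metric MeasureTheory Set

namespace Pool.Agent.TH425.BF

/-- open truncated regions exhausting the half plane -/
def WO (N : ℝ) : Set ℂ := {t : ℂ | 1 / N < t.re ∧ ‖t‖ < N}

/-- compact truncated regions exhausting the half plane -/
def CK (N : ℝ) : Set ℂ := {t : ℂ | 1 / N ≤ t.re ∧ ‖t‖ ≤ N}

theorem isOpen_WO (N : ℝ) : IsOpen (WO N) :=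
  (isOpen_lt continuous_const continuous_re).inter (isOpen_lt continuous_norm continuous_const)

theorem convex_WO (N : ℝ) : Convex ℝ (WO N) := by
  have h1 : WO N = {t : ℂ | 1 / N < t.re} ∩ ball 0 N := by
    ext t; simp [WO]
  rw [h1]
  exact (convex_halfSpace_re_gt _).inter (convex_ball _ _)

theorem isCompact_CK (N : ℝ) : IsCompact (CK N) := by
  have h1 : CK N = {t : ℂ | 1 / N ≤ t.re} ∩ closedBall 0 N := by
    ext t; simp [CK]
  rw [h1]
  exact (isCompact_closedBall 0 N).inter_left (isClosed_le continuous_const continuous_re)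

theorem one_mem_WO {N : ℝ} (hN : 1 < N) : (1 : ℂ) ∈ WO N := by
  refine ⟨?_, by simpa using hN⟩
  rw [one_re, div_lt_one (by linarith)]
  exact hN

theorem CK_sub_WO {N : ℝ} (hN : 1 < N) : CK N ⊆ WO (N + 1) := by
  intro t ht
  refine ⟨lt_of_lt_of_le ?_ ht.1, lt_of_le_of_lt ht.2 (by linarith)⟩
  exact one_div_lt_one_div_of_lt (by linarith) (by linarith)

theorem WO_mem {N : ℝ} (hN : 1 < N) {θ x : ℝ} (hx : 0 < x) {t : ℂ} (ht : t ∈ WO N) :
    (θ : ℂ) * I + x * t ∈ HP := by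
  change 0 < ((θ : ℂ) * I + x * t).re
  have h1 : ((θ : ℂ) * I + x * t).re = x * t.re := by simp
  rw [h1]
  have h2 : 0 < 1 / N := by positivity
  exact mul_pos hx (h2.trans ht.1)

theorem growthA {A : ℂ → ℂ} (hA : IsBl A) {N : ℝ} (hN : 1 < N) {θ x : ℝ}
    (hx : 0 < x) (hxN : x * N ≤ 3) {t : ℂ} (ht : t ∈ WO N) :
    ‖A (θ * I + x * t)‖ ≤ ‖A (θ * I + x)‖ * Real.exp (4 * N * (N + 1)) := by
  have hN0 : 0 < N := by linarith
  have h1W := one_mem_WO hN
  have hre : ∀ y : ℂ, ((θ : ℂ) * I + x * y).re = x * y.re := by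
    intro y; simp
  set f : ℝ → ℂ := fun τ => A (θ * I + x * (1 + τ * (t - 1))) with hf
  set f' : ℝ → ℂ := fun τ => (x * (t - 1)) * deriv A (θ * I + x * (1 + τ * (t - 1))) with hf'
  have hseg : ∀ τ ∈ Icc (0 : ℝ) 1, (1 : ℂ) + τ * (t - 1) ∈ WO N := by
    intro τ hτ
    have := (convex_WO N) h1W ht (show (0 : ℝ) ≤ 1 - τ by linarith [hτ.2]) hτ.1 (by ring)
    have h2 : (1 - τ) • (1 : ℂ) + τ • t = 1 + τ * (t - 1) := by
      simp only [real_smul]; push_cast; ring
    rwa [h2] at this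
  have hder : ∀ τ ∈ Icc (0 : ℝ) 1, HasDerivAt f (f' τ) τ := by
    intro τ hτ
    have h1 : HasDerivAt A (deriv A (θ * I + x * (1 + τ * (t - 1))))
        (θ * I + x * (1 + τ * (t - 1))) :=
      (hA.diff.differentiableAt (isOpen_HP.mem_nhds (WO_mem hN hx (hseg τ hτ)))).hasDerivAt
    have h2 : HasDerivAt (fun τ : ℝ => (θ : ℂ) * I + (x : ℂ) * (1 + (τ : ℂ) * (t - 1)))
        (x * (t - 1)) τ := by
      have h3 : HasDerivAt (fun τ : ℝ => (τ : ℂ)) 1 τ := Complex.ofRealCLM.hasDerivAt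
      have h4 := (((h3.mul_const (t - 1)).const_add 1).const_mul (x : ℂ)).const_add ((θ : ℂ) * I)
      simpa using h4
    exact h1.scomp τ h2
  have htN : ‖t - 1‖ ≤ N + 1 := by
    have := norm_sub_le t 1
    rw [norm_one] at this
    linarith [ht.2]
  have hb : ∀ τ ∈ Ico (0 : ℝ) 1, ‖f' τ‖ ≤ (4 * N * (N + 1)) * ‖f τ‖ + 0 := by
    intro τ hτ
    have hτ' : τ ∈ Icc (0 : ℝ) 1 := ⟨hτ.1, hτ.2.le⟩
    set y : ℂ := (1 : ℂ) + τ * (t - 1) with hy
    have hyW : y ∈ WO N := hseg τ hτ'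
    have hyre : 1 / N < y.re := hyW.1
    have hyre2 : y.re ≤ N := (re_le_norm y).trans hyW.2.le
    have hmem : 0 < ((θ : ℂ) * I + x * y).re := WO_mem hN hx hyW
    have h1 := hA.bd (θ * I + x * y) hmem (by
      rw [hre]
      calc x * y.re ≤ x * N := by gcongr
        _ ≤ 3 := hxN)
    rw [hre] at h1
    have h2 : x * ‖deriv A (θ * I + x * y)‖ ≤ 4 * N * ‖A (θ * I + x * y)‖ := by
      have h3 : x * (1 / N) * ‖deriv A (θ * I + x * y)‖ ≤
          x * y.re * ‖deriv A (θ * I + x * y)‖ := by gcongr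
      have h4 : x * ‖deriv A (θ * I + x * y)‖ = N * (x * (1 / N) * ‖deriv A (θ * I + x * y)‖) := by
        field_simp
      rw [h4]
      have h5 : x * (1 / N) * ‖deriv A (θ * I + x * y)‖ ≤ 4 * ‖A (θ * I + x * y)‖ := h3.trans h1
      calc N * (x * (1 / N) * ‖deriv A (θ * I + x * y)‖) ≤ N * (4 * ‖A (θ * I + x * y)‖) :=
            mul_le_mul_of_nonneg_left h5 hN0.le
        _ = _ := by ring
    simp only [hf', hf, norm_mul, add_zero, norm_real, Real.norm_eq_abs, abs_of_pos hx]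
    calc x * ‖t - 1‖ * ‖deriv A (θ * I + x * y)‖
        = ‖t - 1‖ * (x * ‖deriv A (θ * I + x * y)‖) := by ring
      _ ≤ (N + 1) * (4 * N * ‖A (θ * I + x * y)‖) := by gcongr
      _ = 4 * N * (N + 1) * ‖A (θ * I + x * y)‖ := by ring
  have hg := norm_le_gronwallBound_of_norm_deriv_right_le (f := f) (f' := f')
    (δ := ‖f 0‖) (K := 4 * N * (N + 1)) (ε := 0) (a := 0) (b := 1)
    (fun τ hτ => (hder τ hτ).continuousAt.continuousWithinAt)
    (fun τ hτ => (hder τ ⟨hτ.1, hτ.2.le⟩).hasDerivWithinAt) le_rfl hb 1 (by simp)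
  rw [gronwallBound_ε0] at hg
  have e1 : f 1 = A (θ * I + x * t) := by simp [hf]
  have e0 : f 0 = A (θ * I + x) := by simp [hf]
  rw [e1, e0] at hg
  simpa using hg

/-- near a density point every relative position is approximated -/
theorem dens_near {F : Set ℝ} {θ : ℝ}
    (h : Tendsto (fun r => volume (F ∩ closedBall θ r) / volume (closedBall θ r)) (𝓝[>] 0) (𝓝 1))
    (η : ℝ) {δ : ℝ} (hδ : 0 < δ) :
    ∀ᶠ x : ℝ in 𝓝[>] 0, ∃ θ' ∈ F, |θ' - (θ + x * η)| ≤ δ * x := by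
  set L : ℝ := |η| + δ with hL
  have hL0 : 0 < L := by positivity
  have hcomp : Tendsto (fun x : ℝ => x * L) (𝓝[>] 0) (𝓝[>] 0) := by
    rw [tendsto_nhdsWithin_iff]
    constructor
    · have : Continuous fun x : ℝ => x * L := by fun_prop
      have h2 := (this.tendsto 0).mono_left (nhdsWithin_le_nhds : 𝓝[>] (0 : ℝ) ≤ 𝓝 0)
      simpa using h2
    · filter_upwards [self_mem_nhdsWithin] with x hx
      exact mul_pos hx hL0
  have hκ : ENNReal.ofReal (1 - δ / L) < 1 := by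
    rw [← ENNReal.ofReal_one]
    apply (ENNReal.ofReal_lt_ofReal_iff one_pos).mpr
    have : 0 < δ / L := by positivity
    linarith
  have h1 := (h.comp hcomp).eventually (lt_mem_nhds hκ)
  filter_upwards [h1, self_mem_nhdsWithin] with x hx hx0
  have hxp : 0 < x := hx0
  by_contra hcon
  push Not at hcon
  have hsub : F ∩ closedBall θ (x * L) ⊆ closedBall θ (x * L) \ closedBall (θ + x * η) (δ * x) := by
    rintro y ⟨hy, hy2⟩
    refine ⟨hy2, fun hy3 => ?_⟩
    rw [mem_closedBall, Real.dist_eq] at hy3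
    exact absurd hy3 (not_le.mpr (hcon y hy))
  have hsub2 : closedBall (θ + x * η) (δ * x) ⊆ closedBall θ (x * L) := by
    intro y hy
    rw [mem_closedBall, Real.dist_eq] at hy ⊢
    have h2 : y - θ = (y - (θ + x * η)) + x * η := by ring
    rw [h2]
    refine (abs_add_le _ _).trans ?_
    rw [abs_mul, abs_of_pos hxp, hL]
    nlinarith
  have hvol : volume (F ∩ closedBall θ (x * L)) ≤ ENNReal.ofReal (2 * (x * L) - 2 * (δ * x)) := by
    refine (measure_mono hsub).trans ?_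
    rw [measure_sdiff hsub2 measurableSet_closedBall.nullMeasurableSet (by
      rw [Real.volume_closedBall]; exact ENNReal.ofReal_ne_top), Real.volume_closedBall,
      Real.volume_closedBall, ← ENNReal.ofReal_sub _ (by positivity)]
  have hr : volume (F ∩ closedBall θ (x * L)) / volume (closedBall θ (x * L)) ≤
      ENNReal.ofReal (1 - δ / L) := by
    rw [Real.volume_closedBall]
    apply ENNReal.div_le_of_le_mul
    rw [← ENNReal.ofReal_mul' (by positivity)]
    refine hvol.trans (ENNReal.ofReal_le_ofReal (le_of_eq ?_))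
    field_simp
  exact absurd hx (not_lt.mpr hr)

/-- Windows: along scales where the modulus approaches its upper limit, the function is
asymptotically constant. -/
theorem window {A : ℂ → ℂ} (hA : IsBl A) :
    ∀ᵐ θ : ℝ, ∀ M : ℝ, 0 < M → (∀ q > M, ∀ᶠ x : ℝ in 𝓝[>] 0, ‖A (θ * I + x)‖ ≤ q) →
      ∀ x : ℕ → ℝ, (∀ j, 0 < x j) → Tendsto x atTop (𝓝 0) →
      Tendsto (fun j => ‖A (θ * I + x j)‖) atTop (𝓝 M) → ∀ N > (1 : ℝ), ∀ ε > 0,
      ∀ᶠ j in atTop, ∀ t ∈ CK N,
        x j * ‖deriv A (θ * I + x j * t)‖ ≤ ε * ‖A (θ * I + x j * t)‖ := by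
  classical
  set F : ℚ → ℕ → Set ℝ := fun q m => {θ : ℝ | ∀ x : ℝ, 0 < x → x < 1 / ((m : ℝ) + 1) →
    ‖A (θ * I + x)‖ ≤ q} with hFdef
  have hFclosed : ∀ q m, IsClosed (F q m) := by
    intro q m
    have h1 : F q m = ⋂ (x : ℝ) (_ : 0 < x ∧ x < 1 / ((m : ℝ) + 1)), {θ : ℝ | ‖A (θ * I + x)‖ ≤ q} := by
      ext θ
      simp only [hFdef, mem_ofPred_eq, mem_iInter]
      exact ⟨fun h x hx => h x hx.1 hx.2, fun h x h1 h2 => h x ⟨h1, h2⟩⟩
    rw [h1]
    apply isClosed_iInter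
    intro x
    apply isClosed_iInter
    intro hx
    apply isClosed_le _ continuous_const
    apply Continuous.norm
    apply hA.diff.continuousOn.comp_continuous (by fun_prop)
    intro θ
    change 0 < ((θ : ℂ) * I + x).re
    simpa using hx.1
  have hdens : ∀ᵐ θ : ℝ, ∀ (q : ℚ) (m : ℕ), θ ∈ F q m →
      Tendsto (fun r => volume (F q m ∩ closedBall θ r) / volume (closedBall θ r)) (𝓝[>] 0) (𝓝 1) := by
    rw [ae_all_iff]; intro q
    rw [ae_all_iff]; intro m
    rw [← ae_restrict_iff' (hFclosed q m).measurableSet]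
    exact Besicovitch.ae_tendsto_measure_inter_div volume (F q m)
  filter_upwards [hdens] with θ hθ
  intro M hM hlim x hx0 hxt hxM N hN ε hε
  by_contra hcon
  set Bad : Set ℕ := {j | ∃ t ∈ CK N, ε * ‖A (θ * I + x j * t)‖ < x j * ‖deriv A (θ * I + x j * t)‖}
    with hBad
  have hfreq : ∃ᶠ j in atTop, j ∈ Bad := by
    rw [Filter.not_eventually] at hcon
    refine hcon.mono fun j hj => ?_
    push Not at hj
    exact hj
  have hneb : (atTop ⊓ 𝓟 Bad : Filter ℕ).NeBot := frequently_mem_iff_neBot.mp hfreq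
  set 𝒰 : Ultrafilter ℕ := Ultrafilter.of (atTop ⊓ 𝓟 Bad) with h𝒰
  have hle0 : (𝒰 : Filter ℕ) ≤ atTop ⊓ 𝓟 Bad := Ultrafilter.of_le _
  have hle : (𝒰 : Filter ℕ) ≤ atTop := hle0.trans inf_le_left
  have hBm : ∀ᶠ j in (𝒰 : Filter ℕ), j ∈ Bad := le_principal_iff.mp (hle0.trans inf_le_right)
  set N' : ℝ := N + 1 with hN'
  have hN'1 : 1 < N' := by linarith
  set Good : Set ℕ := {j | x j * N' ≤ 3 ∧ ‖A (θ * I + x j)‖ ≤ M + 1} with hGood
  have hGev : ∀ᶠ j in (𝒰 : Filter ℕ), j ∈ Good := by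
    apply hle
    have h1 : ∀ᶠ j in atTop, x j * N' < 3 := by
      have := hxt.mul_const N'
      rw [zero_mul] at this
      exact this.eventually (gt_mem_nhds (by norm_num))
    have h2 : ∀ᶠ j in atTop, ‖A (θ * I + x j)‖ < M + 1 :=
      hxM.eventually (gt_mem_nhds (by linarith))
    filter_upwards [h1, h2] with j h3 h4
    exact ⟨h3.le, h4.le⟩
  set G : ℕ → ℂ → ℂ := fun j t => if j ∈ Good then A (θ * I + x j * t) else 0 with hG
  have hGeq : ∀ j ∈ Good, G j = fun t => A (θ * I + x j * t) := by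
    intro j hj
    funext t
    simp [hG, hj]
  have hGd : ∀ j, DifferentiableOn ℂ (G j) (WO N') := by
    intro j
    by_cases hj : j ∈ Good
    · rw [hGeq j hj]
      apply hA.diff.comp (by fun_prop)
      intro t ht
      exact WO_mem hN'1 (hx0 j) ht
    · have : G j = fun _ => 0 := by funext t; simp [hG, hj]
      rw [this]
      exact differentiableOn_const _
  have hGb : ∀ j, ∀ t ∈ WO N', ‖G j t‖ ≤ (M + 1) * Real.exp (4 * N' * (N' + 1)) := by
    intro j t ht
    by_cases hj : j ∈ Good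
    · rw [hGeq j hj]
      refine (growthA hA hN'1 (hx0 j) hj.1 ht).trans ?_
      have := hj.2
      gcongr
    · have : G j t = 0 := by simp [hG, hj]
      rw [this, norm_zero]
      positivity
  obtain ⟨Φ, hΦd, hΦ⟩ := Pool.Agent.Helper114.Montel.montel (isOpen_WO N') G hGd _ hGb 𝒰
  have h1W := one_mem_WO hN'1
  -- value at one
  have hΦ1 : ‖Φ 1‖ = M := by
    have h1 : Tendsto (fun j => ‖G j 1‖) 𝒰 (𝓝 ‖Φ 1‖) := (hΦ.tendsto_at h1W).norm
    refine tendsto_nhds_unique h1 ((hxM.mono_left hle).congr' ?_)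
    filter_upwards [hGev] with j hj
    rw [hGeq j hj]
    simp only [mul_one]
  -- upper bound
  have hub : ∀ t ∈ WO N', ‖Φ t‖ ≤ M := by
    intro t ht
    by_contra hcon2
    have hcon3 := not_le.mp hcon2
    obtain ⟨q, hq1, hq2⟩ := exists_rat_btwn hcon3
    have h1 := hlim q hq1
    obtain ⟨δ0, hδ0, h2⟩ := (mem_nhdsGT_iff_exists_Ioo_subset).mp h1
    obtain ⟨m, hm⟩ := exists_nat_one_div_lt (show (0 : ℝ) < δ0 from hδ0)
    have hθF : θ ∈ F q m := fun y hy1 hy2 => h2 ⟨hy1, hy2.trans hm⟩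
    have hd := hθ q m hθF
    -- neighbourhood where the limit is large
    have hcont : ContinuousWithinAt (fun t => ‖Φ t‖) (WO N') t := (hΦd.continuousOn t ht).norm
    set κ : ℝ := (‖Φ t‖ - q) / 2 with hκ
    have hκ0 : 0 < κ := by rw [hκ]; linarith
    obtain ⟨V, hV, hV2⟩ := (Metric.tendstoLocallyUniformlyOn_iff.mp hΦ) κ hκ0 t ht
    have hV3 : ∀ᶠ z in 𝓝[WO N'] t, (q : ℝ) + κ < ‖Φ z‖ :=
      hcont.eventually (lt_mem_nhds (by rw [hκ]; linarith))
    have hV4 : ∀ᶠ z in 𝓝 t, z ∈ V ∧ (q : ℝ) + κ < ‖Φ z‖ := by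
      have hnh : 𝓝[WO N'] t = 𝓝 t := (isOpen_WO N').nhdsWithin_eq ht
      rw [hnh] at hV hV3
      exact (show ∀ᶠ z in 𝓝 t, z ∈ V from hV).and hV3
    obtain ⟨δ, hδ, hball⟩ := Metric.eventually_nhds_iff.mp hV4
    have h3 := dens_near hd t.im (half_pos hδ)
    have hxg : Tendsto x 𝒰 (𝓝[>] 0) := by
      rw [tendsto_nhdsWithin_iff]
      exact ⟨hxt.mono_left hle, Eventually.of_forall hx0⟩
    have h4 := hxg.eventually h3
    have h5 : ∀ᶠ j in (𝒰 : Filter ℕ), x j * t.re < 1 / ((m : ℝ) + 1) := by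
      have := (hxt.mono_left hle).mul_const t.re
      rw [zero_mul] at this
      exact this.eventually (gt_mem_nhds (by positivity))
    have htre : 0 < t.re := lt_trans (by positivity) ht.1
    obtain ⟨j, ⟨⟨h6, h7⟩, h8⟩, h9⟩ := (((hV2.and h4).and h5).and hGev).exists
    obtain ⟨θ', hθ'F, hθ'⟩ := h7
    set z : ℂ := (t.re : ℂ) + ((θ' - θ) / x j : ℝ) * I with hz
    have hzt : dist z t < δ := by
      have h10 : z - t = (((θ' - (θ + x j * t.im)) / x j : ℝ) : ℂ) * I := by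
        apply Complex.ext
        · simp [hz]
        · simp [hz]
          have := (hx0 j).ne'
          field_simp
          ring
      rw [dist_eq_norm, h10, norm_mul, norm_I, mul_one, norm_real, Real.norm_eq_abs, abs_div,
        abs_of_pos (hx0 j), div_lt_iff₀ (hx0 j)]
      have := hx0 j
      nlinarith
    obtain ⟨hzV, hzq⟩ := hball hzt
    have h11 := h6 z hzV
    rw [hGeq j h9, dist_eq_norm] at h11
    have h12 : (θ : ℂ) * I + x j * z = θ' * I + ((x j * t.re : ℝ) : ℂ) := by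
      rw [hz]
      have : (x j : ℂ) ≠ 0 := by exact_mod_cast (hx0 j).ne'
      push_cast
      field_simp
      ring
    change ‖Φ z - A (θ * I + x j * z)‖ < κ at h11
    rw [h12] at h11
    have h13 := hθ'F (x j * t.re) (mul_pos (hx0 j) htre) h8
    have h14 := norm_sub_norm_le (Φ z) (A (θ' * I + ((x j * t.re : ℝ) : ℂ)))
    linarith
  -- the limit is constant
  have hmax : IsMaxOn (norm ∘ Φ) (WO N') 1 := by
    intro t ht
    change ‖Φ t‖ ≤ ‖Φ 1‖
    rw [hΦ1]
    exact hub t ht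
  have hconst := Complex.eqOn_of_isPreconnected_of_isMaxOn_norm (convex_WO N').isPreconnected
    (isOpen_WO N') hΦd h1W hmax
  have hder0 : ∀ t ∈ WO N', deriv Φ t = 0 := by
    intro t ht
    have h1 : Φ =ᶠ[𝓝 t] fun _ => Φ 1 := by
      filter_upwards [(isOpen_WO N').mem_nhds ht] with z hz
      exact hconst hz
    rw [h1.deriv_eq]
    exact deriv_const _ _
  -- marked points
  choose! t ht1 ht2 using fun j (hj : j ∈ Bad) => hj
  obtain ⟨t0, ht0, ht0l⟩ := (isCompact_CK N).ultrafilter_le_nhds (𝒰.map t) (by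
    rw [le_principal_iff, Ultrafilter.coe_map, Filter.mem_map]
    filter_upwards [hBm] with j hj
    exact ht1 j hj)
  have ht0t : Tendsto t 𝒰 (𝓝 t0) := ht0l
  have ht0W : t0 ∈ WO N' := CK_sub_WO hN ht0
  have htw : Tendsto t 𝒰 (𝓝[WO N'] t0) := by
    rw [tendsto_nhdsWithin_iff]
    exact ⟨ht0t, ht0t ((isOpen_WO N').mem_nhds ht0W)⟩
  have hlim1 : Tendsto (fun j => G j (t j)) 𝒰 (𝓝 (Φ t0)) :=
    hΦ.tendsto_comp (hΦd.continuousOn t0 ht0W) ht0W htw
  have hΦ' := hΦ.deriv (Eventually.of_forall hGd) (isOpen_WO N')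
  have hlim2 : Tendsto (fun j => deriv (G j) (t j)) 𝒰 (𝓝 (deriv Φ t0)) :=
    hΦ'.tendsto_comp ((hΦd.deriv (isOpen_WO N')).continuousOn t0 ht0W) ht0W htw
  rw [hder0 t0 ht0W] at hlim2
  have hΦ0 : ‖Φ t0‖ = M := by
    rw [hconst ht0W]
    exact hΦ1
  have h1 : Tendsto (fun j => ε * ‖G j (t j)‖) 𝒰 (𝓝 (ε * M)) := by
    rw [← hΦ0]
    exact hlim1.norm.const_mul ε
  have h2 : Tendsto (fun j => ‖deriv (G j) (t j)‖) 𝒰 (𝓝 0) := by
    have := hlim2.norm
    rwa [norm_zero] at this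
  have h3 : ∀ᶠ j in (𝒰 : Filter ℕ), ‖deriv (G j) (t j)‖ < ε * ‖G j (t j)‖ := by
    have h4 : 0 < ε * M := by positivity
    filter_upwards [h2.eventually (gt_mem_nhds (half_pos h4)),
      h1.eventually (lt_mem_nhds (half_lt_self h4))] with j h5 h6
    linarith
  obtain ⟨j, ⟨h4, h5⟩, h6⟩ := ((h3.and hGev).and hBm).exists
  have h7 := ht2 j h6
  have htW : t j ∈ WO N' := CK_sub_WO hN (ht1 j h6)
  rw [hGeq j h5] at h4
  have h8 : deriv (fun t => A (θ * I + x j * t)) (t j) = x j * deriv A (θ * I + x j * t j) := by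
    have h9 : HasDerivAt A (deriv A (θ * I + x j * t j)) (θ * I + x j * t j) :=
      (hA.diff.differentiableAt (isOpen_HP.mem_nhds (WO_mem hN'1 (hx0 j) htW))).hasDerivAt
    have h10 : HasDerivAt (fun t : ℂ => (θ : ℂ) * I + x j * t) (x j) (t j) := by
      simpa using ((hasDerivAt_id (t j)).const_mul (x j : ℂ)).const_add ((θ : ℂ) * I)
    have h11 := h9.comp (t j) h10
    rw [mul_comm (x j : ℂ) (deriv A (θ * I + x j * t j))]
    exact h11.deriv
  rw [h8, norm_mul, norm_real, Real.norm_eq_abs, abs_of_pos (hx0 j)] at h4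
  linarith

end Pool.Agent.TH425.BF
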