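import Mathlib
import Pool.Agent.TH425.BF.B3
import Pool.Agent.TH425.BF.B4

set_option autoImplicit false

open Complex Topology Filter Metric MeasureTheory Set

namespace Pool.Agent.TH425.BF

/-- flatness along a sequence of scales -/
def Flat (A : ℂ → ℂ) (θ : ℝ) (x : ℕ → ℝ) : Prop :=
  ∀ N > (1 : ℝ), ∀ ε > 0, ∀ᶠ j in atTop, ∀ t ∈ CK N,
    x j * ‖deriv A (θ * I + x j * t)‖ ≤ ε * ‖A (θ * I + x j * t)‖

theorem convex_CK (N : ℝ) : Convex ℝ (CK N) := by
  have h1 : CK N = {t : ℂ | 1 / N ≤ t.re} ∩ closedBall 0 N := by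
    ext t; simp [CK]
  rw [h1]
  exact (convex_halfSpace_re_ge _).inter (convex_closedBall _ _)

/-- data from a Bloch type function -/
theorem exists_dat {A : ℂ → ℂ} (hA : IsBl A) : ∃ b H : ℂ → ℂ, Dat b (fun s => deriv A s / A s) H ∧
    ∀ s ∈ HP, exp (b s) = A s := by
  obtain ⟨b, hb1, hb2⟩ := exists_log hA.diff hA.ne
  obtain ⟨H, hH⟩ := exists_prim (f := b)
    (fun s hs => (hb1 s hs).differentiableAt.differentiableWithinAt)
  refine ⟨b, H, ⟨hb1, fun s hs hs3 => ?_, hH⟩, hb2⟩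
  have h1 := hA.bd s hs hs3
  have h2 : 0 < ‖A s‖ := norm_pos_iff.mpr (hA.ne s hs)
  rw [norm_div, ← mul_div_assoc, div_le_iff₀ h2]
  exact h1

theorem pt_eq (x θ : ℝ) : pt x θ = θ * I + x := by unfold pt; ring

theorem re_b {A b : ℂ → ℂ} (hb : ∀ s ∈ HP, exp (b s) = A s) {s : ℂ} (hs : s ∈ HP) :
    (b s).re = Real.log ‖A s‖ := by
  rw [← hb s hs, Complex.norm_exp, Real.log_exp]

/-- along flat scales the martingale is close to the logarithm of the modulus -/
theorem flat_lim {A b H : ℂ → ℂ} (D : Dat b (fun s => deriv A s / A s) H)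
    (hA : IsBl A) (hb : ∀ s ∈ HP, exp (b s) = A s) {θ c : ℝ}
    (hc : Tendsto (fun n => mf H n θ) atTop (𝓝 c)) {x : ℕ → ℝ} (hx0 : ∀ j, 0 < x j)
    (hxt : Tendsto x atTop (𝓝 0)) (hfl : Flat A θ x) :
    Tendsto (fun j => Real.log ‖A (θ * I + x j)‖) atTop (𝓝 c) := by
  -- dyadic approximation
  have hex : ∀ j, ∃ n : ℕ, x j ≤ 1 → 1 / 2 ^ (n + 1) < x j ∧ x j ≤ 1 / 2 ^ n := by
    intro j
    by_cases h : x j ≤ 1
    · have h1 : 1 ≤ 1 / x j := by rw [le_div_iff₀ (hx0 j)]; linarith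
      obtain ⟨n, hn1, hn2⟩ := exists_nat_pow_near h1 (by norm_num : (1 : ℝ) < 2)
      refine ⟨n, fun _ => ⟨?_, ?_⟩⟩
      · rw [div_lt_iff₀ (by positivity)]
        rw [div_lt_iff₀ (hx0 j)] at hn2
        linarith
      · rw [le_div_iff₀ (by positivity)]
        rw [le_div_iff₀ (hx0 j)] at hn1
        linarith
    · exact ⟨0, fun h1 => absurd h1 h⟩
  choose n hn using hex
  have hx1 : ∀ᶠ j in atTop, x j ≤ 1 := by
    filter_upwards [hxt.eventually (gt_mem_nhds one_pos)] with j hj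
    exact hj.le
  have hnt : Tendsto n atTop atTop := by
    rw [Filter.tendsto_atTop]
    intro m
    have h1 : ∀ᶠ j in atTop, x j < 1 / 2 ^ m := hxt.eventually (gt_mem_nhds (by positivity))
    filter_upwards [h1, hx1] with j h2 h3
    obtain ⟨h4, _⟩ := hn j h3
    by_contra hcon
    have h5 : n j + 1 ≤ m := by omega
    have h6 : (1 : ℝ) / 2 ^ m ≤ 1 / 2 ^ (n j + 1) :=
      one_div_le_one_div_of_le (by positivity) (pow_le_pow_right₀ (by norm_num) h5)
    linarith
  have hmf : Tendsto (fun j => mf H (n j) θ) atTop (𝓝 c) := hc.comp hnt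
  have hdiff : Tendsto (fun j => mf H (n j) θ - Real.log ‖A (θ * I + x j)‖) atTop (𝓝 0) := by
    rw [Metric.tendsto_nhds]
    intro κ hκ
    -- choose the parameters
    set τ : ℝ := min 1 ((κ / 128) ^ 2) with hτ
    have hτ0 : 0 < τ := lt_min one_pos (by positivity)
    have hτ1 : τ ≤ 1 := min_le_left _ _
    have hsτ : 32 * Real.sqrt τ ≤ κ / 4 := by
      have h1 : Real.sqrt τ ≤ κ / 128 := by
        rw [show κ / 128 = Real.sqrt ((κ / 128) ^ 2) by rw [Real.sqrt_sq (by positivity)]]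
        exact Real.sqrt_le_sqrt (min_le_right _ _)
      linarith
    set N : ℝ := 4 + 1 / τ with hN
    have hN1 : 1 < N := by have : 0 < 1 / τ := by positivity
                           linarith
    have hN0 : 0 < N := by linarith
    set ε : ℝ := κ / (64 * N * 2) with hε
    have hε0 : 0 < ε := by positivity
    filter_upwards [hfl N hN1 ε hε0, hx1] with j hj hj1
    obtain ⟨hn1, hn2⟩ := hn j hj1
    set l : ℝ := 1 / 2 ^ (n j) with hl
    have hl0 : 0 < l := by positivity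
    have hl3 : l ≤ 3 := by
      have : (1 : ℝ) ≤ 2 ^ (n j) := one_le_pow₀ (by norm_num)
      rw [hl, div_le_iff₀ (by positivity)]; linarith
    have hl2 : l < 2 * x j := by
      have : (1 : ℝ) / 2 ^ (n j + 1) = l / 2 := by rw [hl, pow_succ]; field_simp
      rw [this] at hn1; linarith
    have hxj := hx0 j
    -- oscillation
    have hosc : ∀ p ∈ CK N, ∀ q ∈ CK N,
        ‖b (θ * I + x j * p) - b (θ * I + x j * q)‖ ≤ κ / 64 := by
      intro p hp q hq
      have hmem : ∀ t ∈ CK N, (θ : ℂ) * I + x j * t ∈ HP := fun t ht =>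
        WO_mem (N := N + 1) (by linarith) hxj (CK_sub_WO hN1 ht)
      have h := (convex_CK N).norm_image_sub_le_of_norm_hasDerivWithin_le
        (f := fun t : ℂ => b (θ * I + x j * t))
        (f' := fun t => (deriv A (θ * I + x j * t) / A (θ * I + x j * t)) * x j) (C := ε)
        (x := q) (y := p) (fun t ht => by
          have h1 := D.hb _ (hmem t ht)
          have h2 : HasDerivAt (fun t : ℂ => (θ : ℂ) * I + x j * t) (x j) t := by
            simpa using ((hasDerivAt_id t).const_mul (x j : ℂ)).const_add ((θ : ℂ) * I)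
          exact (h1.comp t h2).hasDerivWithinAt) (fun t ht => by
          have h3 := hj t ht
          have h4 : 0 < ‖A (θ * I + x j * t)‖ := norm_pos_iff.mpr (hA.ne _ (hmem t ht))
          rw [norm_mul, norm_div, norm_real, Real.norm_eq_abs, abs_of_pos hxj, div_mul_eq_mul_div,
            div_le_iff₀ h4]
          linarith) hq hp
      refine h.trans ?_
      have h5 : ‖p - q‖ ≤ 2 * N := (norm_sub_le _ _).trans (by linarith [hp.2, hq.2])
      calc ε * ‖p - q‖ ≤ ε * (2 * N) := by gcongr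
        _ = κ / 64 := by rw [hε]; field_simp
    have hrep : ∀ t θ' : ℝ, pt t θ' = θ * I + x j * (((t / x j : ℝ) : ℂ) + ((θ' - θ) / x j : ℝ) * I) := by
      intro t θ'
      have : (x j : ℂ) ≠ 0 := by exact_mod_cast hxj.ne'
      unfold pt
      push_cast
      field_simp
      ring
    have hCK : ∀ t θ' : ℝ, τ * l ≤ t → t ≤ l → |θ' - θ| ≤ l →
        ((t / x j : ℝ) : ℂ) + ((θ' - θ) / x j : ℝ) * I ∈ CK N := by
      intro t θ' h1 h2 h3
      have ht0 : 0 < t := lt_of_lt_of_le (by positivity) h1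
      constructor
      · have h4 : (((t / x j : ℝ) : ℂ) + ((θ' - θ) / x j : ℝ) * I).re = t / x j := by simp
        rw [h4, le_div_iff₀ hxj]
        have h5 : 1 / N ≤ τ := by
          rw [div_le_iff₀ hN0, hN]
          have : τ * (4 + 1 / τ) = 4 * τ + 1 := by field_simp
          linarith
        calc 1 / N * x j ≤ τ * l := by gcongr
          _ ≤ t := h1
      · refine (norm_add_le _ _).trans ?_
        rw [norm_mul, norm_I, mul_one, norm_real, norm_real, Real.norm_eq_abs, Real.norm_eq_abs,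
          abs_div, abs_div, abs_of_pos hxj, abs_of_pos ht0, ← add_div, div_le_iff₀ hxj]
        have : 0 < 1 / τ := by positivity
        nlinarith
    have hptl : pt l θ = θ * I + x j * (((l / x j : ℝ) : ℂ) + ((θ - θ) / x j : ℝ) * I) := hrep l θ
    have hCKl := hCK l θ (by nlinarith) le_rfl (by simp; exact hl0.le)
    -- the dyadic interval
    set k : ℤ := ⌊2 ^ (n j) * θ⌋ with hk
    have h2 : (0 : ℝ) < 2 ^ (n j) := by positivity
    have hk0 : (k : ℝ) / 2 ^ (n j) ≤ θ := by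
      rw [div_le_iff₀ h2, mul_comm]; exact Int.floor_le _
    have hk1 : θ ≤ ((k : ℝ) + 1) / 2 ^ (n j) := by
      rw [le_div_iff₀ h2, mul_comm]; exact (Int.lt_floor_add_one _).le
    have hkl : ((k : ℝ) + 1) / 2 ^ (n j) - (k : ℝ) / 2 ^ (n j) = l := by rw [hl, ← sub_div]; congr 1; ring
    have hw := Db_window D hl0 hl3 hkl hτ0 hτ1 (ε := κ / 64) (θ := θ) (by
      intro t ht1 ht2 θ' h3 h4
      rw [hptl, hrep t θ']
      apply hosc _ (hCK t θ' ht1 ht2 _) _ hCKl
      rw [abs_le]; constructor <;> linarith)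
    have h5 := (Complex.abs_im_le_norm _).trans hw
    have h6 : (Db H ((k : ℝ) / 2 ^ (n j)) (((k : ℝ) + 1) / 2 ^ (n j)) -
        b (pt l θ) * ((l : ℂ) * I)).im =
        (Db H ((k : ℝ) / 2 ^ (n j)) (((k : ℝ) + 1) / 2 ^ (n j))).im - (b (pt l θ)).re * l := by
      have : b (pt l θ) * ((l : ℂ) * I) = (l : ℂ) * (b (pt l θ) * I) := by ring
      rw [sub_im, this, im_ofReal_mul, mul_I_im]
      ring
    rw [h6] at h5
    have h7 : mf H (n j) θ - (b (pt l θ)).re =
        ((Db H ((k : ℝ) / 2 ^ (n j)) (((k : ℝ) + 1) / 2 ^ (n j))).im - (b (pt l θ)).re * l) / l := by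
      unfold mf sg
      rw [← hk, hl]
      field_simp
    have h8 : |mf H (n j) θ - (b (pt l θ)).re| ≤ 3 * (κ / 64) + 32 * Real.sqrt τ := by
      rw [h7, abs_div, abs_of_pos hl0, div_le_iff₀ hl0]
      exact h5
    -- comparison of the heights l and x j
    have hone : (1 : ℂ) ∈ CK N := by
      refine ⟨?_, by rw [norm_one]; linarith⟩
      rw [one_re, div_le_iff₀ hN0]; linarith
    have h9 := hosc _ hCKl 1 hone
    rw [← hptl, mul_one] at h9
    have h10 : |(b (pt l θ)).re - (b (θ * I + x j)).re| ≤ κ / 64 := by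
      rw [← sub_re]
      exact (Complex.abs_re_le_norm _).trans h9
    have hxmem : (θ : ℂ) * I + x j ∈ HP := by
      change 0 < ((θ : ℂ) * I + x j).re
      simpa using hxj
    rw [re_b hb hxmem] at h10
    rw [Real.dist_eq, sub_zero]
    have h11 : mf H (n j) θ - Real.log ‖A (θ * I + x j)‖ = (mf H (n j) θ - (b (pt l θ)).re) +
        ((b (pt l θ)).re - Real.log ‖A (θ * I + x j)‖) := by ring
    rw [h11]
    refine (abs_add_le _ _).trans_lt ?_
    linarith
  have h1 := hmf.sub hdiff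
  rw [sub_zero] at h1
  refine h1.congr fun j => ?_
  ring

/-- extraction of a sequence realising the upper limit -/
theorem exists_limsup_seq {v : ℝ → ℝ} (hub : ∃ C, ∀ᶠ x in 𝓝[>] (0 : ℝ), v x ≤ C)
    (hlb : ∃ c, ∀ᶠ x in 𝓝[>] (0 : ℝ), c ≤ v x) :
    ∃ L : ℝ, (∀ q > L, ∀ᶠ x in 𝓝[>] (0 : ℝ), v x ≤ q) ∧ ∃ x : ℕ → ℝ, (∀ j, 0 < x j) ∧
      Tendsto x atTop (𝓝 0) ∧ Tendsto (fun j => v (x j)) atTop (𝓝 L) := by
  obtain ⟨C, hC⟩ := hub
  obtain ⟨c, hc⟩ := hlb
  set S : Set ℝ := {q | ∀ᶠ x in 𝓝[>] (0 : ℝ), v x ≤ q} with hS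
  have hSne : S.Nonempty := ⟨C, hC⟩
  have hSb : BddBelow S := by
    refine ⟨c, fun q hq => ?_⟩
    obtain ⟨x, h1, h2⟩ := (hc.and hq).exists
    linarith
  set L : ℝ := sInf S with hL
  have h1 : ∀ q > L, ∀ᶠ x in 𝓝[>] (0 : ℝ), v x ≤ q := by
    intro q hq
    obtain ⟨q', hq', hq2⟩ := exists_lt_of_csInf_lt hSne hq
    filter_upwards [hq'] with x hx
    linarith
  have h2 : ∀ j : ℕ, ∃ x : ℝ, 0 < x ∧ x < 1 / ((j : ℝ) + 1) ∧ L - 1 / ((j : ℝ) + 1) < v x := by
    intro j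
    have hj : (0 : ℝ) < 1 / ((j : ℝ) + 1) := by positivity
    have hns : L - 1 / ((j : ℝ) + 1) ∉ S := by
      intro h
      have := csInf_le hSb h
      linarith
    have hfr : ∃ᶠ x in 𝓝[>] (0 : ℝ), ¬ v x ≤ L - 1 / ((j : ℝ) + 1) :=
      Filter.not_eventually.mp hns
    obtain ⟨x, h3, h4⟩ := (hfr.and_eventually (Ioo_mem_nhdsGT hj)).exists
    exact ⟨x, h4.1, h4.2, not_le.mp h3⟩
  choose x hx0 hx1 hx2 using h2
  have hxt : Tendsto x atTop (𝓝 0) :=
    squeeze_zero (fun j => (hx0 j).le) (fun j => (hx1 j).le) tendsto_one_div_add_atTop_nhds_zero_nat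
  refine ⟨L, h1, x, hx0, hxt, ?_⟩
  have hxg : Tendsto x atTop (𝓝[>] 0) := by
    rw [tendsto_nhdsWithin_iff]
    exact ⟨hxt, Eventually.of_forall hx0⟩
  rw [Metric.tendsto_nhds]
  intro ε hε
  have h3 := hxg.eventually (h1 (L + ε / 2) (by linarith))
  have h4 : ∀ᶠ j : ℕ in atTop, 1 / ((j : ℝ) + 1) < ε :=
    tendsto_one_div_add_atTop_nhds_zero_nat.eventually (gt_mem_nhds hε)
  filter_upwards [h3, h4] with j h5 h6
  rw [Real.dist_eq, abs_lt]
  have := hx2 j
  constructor <;> linarith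

theorem flat_inv {A : ℂ → ℂ} (hA : IsBl A) {θ : ℝ} {x : ℕ → ℝ} (hx0 : ∀ j, 0 < x j)
    (h : Flat (fun s => (A s)⁻¹) θ x) : Flat A θ x := by
  intro N hN ε hε
  filter_upwards [h N hN ε hε] with j hj t ht
  have hmem : (θ : ℂ) * I + x j * t ∈ HP :=
    WO_mem (N := N + 1) (by linarith) (hx0 j) (CK_sub_WO hN ht)
  have h1 := hj t ht
  have h2 : HasDerivAt A (deriv A (θ * I + x j * t)) (θ * I + x j * t) :=
    (hA.diff.differentiableAt (isOpen_HP.mem_nhds hmem)).hasDerivAt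
  have h3 := (h2.inv (hA.ne _ hmem)).deriv
  have h3' : deriv (fun s => (A s)⁻¹) (θ * I + x j * t) =
      -deriv A (θ * I + x j * t) / A (θ * I + x j * t) ^ 2 := h3
  rw [h3', norm_div, norm_neg, norm_pow, norm_inv] at h1
  have h4 : 0 < ‖A (θ * I + x j * t)‖ := norm_pos_iff.mpr (hA.ne _ hmem)
  rw [← mul_div_assoc, div_le_iff₀ (by positivity)] at h1
  calc x j * ‖deriv A (θ * I + x j * t)‖ ≤
      ε * ‖A (θ * I + x j * t)‖⁻¹ * ‖A (θ * I + x j * t)‖ ^ 2 := h1
    _ = ε * ‖A (θ * I + x j * t)‖ := by field_simp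

/-- Local Fatou theorem for Bloch type functions: almost everywhere a one-sided radial bound
forces convergence of the modulus and flatness in every cone. -/
theorem bloch_fatou {A : ℂ → ℂ} (hA : IsBl A) :
    ∀ᵐ θ : ℝ, ((∃ C : ℝ, ∀ᶠ x : ℝ in 𝓝[>] 0, ‖A (θ * I + x)‖ ≤ C) ∨
      (∃ c > (0 : ℝ), ∀ᶠ x : ℝ in 𝓝[>] 0, c ≤ ‖A (θ * I + x)‖)) →
      ∃ M > (0 : ℝ), Tendsto (fun x : ℝ => ‖A (θ * I + x)‖) (𝓝[>] 0) (𝓝 M) ∧
        ∀ N > (1 : ℝ), ∀ ε > 0, ∀ᶠ x : ℝ in 𝓝[>] 0, ∀ t ∈ CK N,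
          x * ‖deriv A (θ * I + x * t)‖ ≤ ε * ‖A (θ * I + x * t)‖ := by
  obtain ⟨b, H, D, hb⟩ := exists_dat hA
  filter_upwards [mf_conv D, window hA, window hA.inv] with θ h1 h2 h3
  intro hor
  have hmem : ∀ x : ℝ, 0 < x → (θ : ℂ) * I + x ∈ HP := by
    intro x hx
    change 0 < ((θ : ℂ) * I + x).re
    simpa using hx
  have hApos : ∀ x : ℝ, 0 < x → 0 < ‖A (θ * I + x)‖ := fun x hx =>
    norm_pos_iff.mpr (hA.ne _ (hmem x hx))
  have hdy : Tendsto (fun n : ℕ => (1 : ℝ) / 2 ^ n) atTop (𝓝[>] 0) := by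
    rw [tendsto_nhdsWithin_iff]
    constructor
    · have := tendsto_pow_atTop_nhds_zero_of_lt_one (r := (1 / 2 : ℝ)) (by norm_num) (by norm_num)
      refine this.congr fun n => ?_
      rw [div_pow, one_pow]
    · exact Eventually.of_forall fun n => by change (0 : ℝ) < _; positivity
  -- boundedness of the martingale
  have hmb : BddAbove (range fun n => mf H n θ) ∨ BddBelow (range fun n => mf H n θ) := by
    rcases hor with ⟨C, hC⟩ | ⟨c, hc0, hc⟩
    · left
      apply Filter.IsBoundedUnder.bddAbove_range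
      refine ⟨Real.log C + 44, ?_⟩
      rw [eventually_map]
      filter_upwards [hdy.eventually hC] with n hn
      have h4 := mf_close D n θ
      rw [re_b hb (pt_mem (by positivity)), pt_eq] at h4
      have h5 := Real.log_le_log (hApos (1 / 2 ^ n) (by positivity)) hn
      have h6 := (abs_le.mp h4).2
      linarith
    · right
      apply Filter.IsBoundedUnder.bddBelow_range
      refine ⟨Real.log c - 44, ?_⟩
      rw [eventually_map]
      filter_upwards [hdy.eventually hc] with n hn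
      have h4 := mf_close D n θ
      rw [re_b hb (pt_mem (by positivity)), pt_eq] at h4
      have h5 := Real.log_le_log hc0 hn
      have h6 := (abs_le.mp h4).1
      change Real.log c - 44 ≤ mf H n θ
      linarith
  obtain ⟨c, hc⟩ := h1 hmb
  -- two sided bounds
  obtain ⟨B, hB⟩ : ∃ B : ℝ, ∀ n, |mf H n θ| ≤ B := by
    obtain ⟨B, hB⟩ := (Metric.isBounded_range_of_tendsto _ hc).exists_norm_le
    exact ⟨B, fun n => hB _ (mem_range_self n)⟩
  have hlog : ∀ x : ℝ, 0 < x → x ≤ 1 → |Real.log ‖A (θ * I + x)‖| ≤ B + 48 := by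
    intro x hx hx1
    have h4 : 1 ≤ 1 / x := by rw [le_div_iff₀ hx]; linarith
    obtain ⟨n, hn1, hn2⟩ := exists_nat_pow_near h4 (by norm_num : (1 : ℝ) < 2)
    have h5 : x ≤ 1 / 2 ^ n := by
      rw [le_div_iff₀ (by positivity)]
      rw [le_div_iff₀ hx] at hn1
      linarith
    have h6 : 1 / 2 ^ n / x ≤ 2 := by
      rw [div_lt_iff₀ hx] at hn2
      rw [div_le_iff₀ hx, div_le_iff₀ (by positivity)]
      rw [pow_succ] at hn2
      linarith
    have h7 := osc_ver D hx h5 (by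
      have : (1 : ℝ) ≤ 2 ^ n := one_le_pow₀ (by norm_num)
      rw [div_le_iff₀ (by positivity)]; linarith) θ
    have h8 : Real.log (1 / 2 ^ n / x) ≤ 1 := by
      have h9 := Real.log_le_log (by positivity) h6
      have := Real.log_two_lt_d9
      linarith
    have h9 := mf_close D n θ
    have h10 : |(b (pt x θ)).re - (b (pt (1 / 2 ^ n) θ)).re| ≤ 4 := by
      rw [← sub_re]
      exact (Complex.abs_re_le_norm _).trans (by linarith)
    rw [re_b hb (pt_mem hx), pt_eq] at h10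
    have h11 := hB n
    rw [abs_le] at *
    constructor <;> linarith [h9.1, h9.2, h10.1, h10.2, h11.1, h11.2]
  have hub : ∀ x : ℝ, 0 < x → x ≤ 1 → ‖A (θ * I + x)‖ ≤ Real.exp (B + 48) := by
    intro x hx hx1
    rw [← Real.exp_log (hApos x hx)]
    exact Real.exp_le_exp.mpr (abs_le.mp (hlog x hx hx1)).2
  have hlb : ∀ x : ℝ, 0 < x → x ≤ 1 → Real.exp (-(B + 48)) ≤ ‖A (θ * I + x)‖ := by
    intro x hx hx1
    rw [← Real.exp_log (hApos x hx)]
    exact Real.exp_le_exp.mpr (abs_le.mp (hlog x hx hx1)).1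
  have hIoc : ∀ᶠ x : ℝ in 𝓝[>] 0, 0 < x ∧ x ≤ 1 := Ioc_mem_nhdsGT one_pos
  -- upper limit
  obtain ⟨M1, hM1, x1, hx10, hx1t, hx1M⟩ := exists_limsup_seq (v := fun x => ‖A (θ * I + x)‖)
    ⟨_, hIoc.mono fun x hx => hub x hx.1 hx.2⟩ ⟨_, hIoc.mono fun x hx => hlb x hx.1 hx.2⟩
  have hM1pos : 0 < M1 := by
    have h4 : Real.exp (-(B + 48)) ≤ M1 := by
      refine ge_of_tendsto hx1M ?_
      filter_upwards [hx1t.eventually (gt_mem_nhds one_pos)] with j hj
      exact hlb _ (hx10 j) hj.le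
    exact (Real.exp_pos _).trans_le h4
  have hf1 : Flat A θ x1 := h2 M1 hM1pos hM1 x1 hx10 hx1t hx1M
  have hl1 := flat_lim D hA hb hc hx10 hx1t hf1
  have hM1c : M1 = Real.exp c := by
    have h4 := (Real.continuousAt_log hM1pos.ne').tendsto.comp hx1M
    have h5 := tendsto_nhds_unique h4 hl1
    rw [← h5, Real.exp_log hM1pos]
  -- lower limit
  obtain ⟨M2, hM2, x2, hx20, hx2t, hx2M⟩ := exists_limsup_seq (v := fun x => ‖(A (θ * I + x))⁻¹‖)
    ⟨(Real.exp (-(B + 48)))⁻¹, hIoc.mono fun x hx => by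
      rw [norm_inv]
      exact inv_anti₀ (Real.exp_pos _) (hlb x hx.1 hx.2)⟩
    ⟨(Real.exp (B + 48))⁻¹, hIoc.mono fun x hx => by
      rw [norm_inv]
      exact inv_anti₀ (hApos x hx.1) (hub x hx.1 hx.2)⟩
  have hM2pos : 0 < M2 := by
    have h4 : (Real.exp (B + 48))⁻¹ ≤ M2 := by
      refine ge_of_tendsto hx2M ?_
      filter_upwards [hx2t.eventually (gt_mem_nhds one_pos)] with j hj
      rw [norm_inv]
      exact inv_anti₀ (hApos _ (hx20 j)) (hub _ (hx20 j) hj.le)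
    exact (inv_pos.mpr (Real.exp_pos _)).trans_le h4
  have hf2 : Flat A θ x2 := flat_inv hA hx20 (h3 M2 hM2pos hM2 x2 hx20 hx2t hx2M)
  have hl2 := flat_lim D hA hb hc hx20 hx2t hf2
  have hM2c : M2 = Real.exp (-c) := by
    have h4 := (Real.continuousAt_log hM2pos.ne').tendsto.comp hx2M
    have h5 : Tendsto (fun j => Real.log ‖(A (θ * I + x2 j))⁻¹‖) atTop (𝓝 (-c)) := by
      refine hl2.neg.congr fun j => ?_
      rw [norm_inv, Real.log_inv]
    have h6 := tendsto_nhds_unique h4 h5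
    rw [← h6, Real.exp_log hM2pos]
  have hlim : Tendsto (fun x : ℝ => ‖A (θ * I + x)‖) (𝓝[>] 0) (𝓝 (Real.exp c)) := by
    rw [tendsto_order]
    constructor
    · intro y hy
      rcases le_or_gt y 0 with hy0 | hy0
      · filter_upwards [hIoc] with x hx
        exact hy0.trans_lt (hApos x hx.1)
      · have h4 : M2 < y⁻¹ := by
          rw [hM2c, Real.exp_neg]
          exact inv_strictAnti₀ hy0 hy
        obtain ⟨q, hq1, hq2⟩ := exists_between h4
        filter_upwards [hM2 q hq1, hIoc] with x hx hx2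
        rw [norm_inv] at hx
        have h5 : ‖A (θ * I + x)‖⁻¹ < y⁻¹ := hx.trans_lt hq2
        exact (inv_lt_inv₀ (hApos x hx2.1) hy0).mp h5
    · intro y hy
      rw [← hM1c] at hy
      obtain ⟨q, hq1, hq2⟩ := exists_between hy
      filter_upwards [hM1 q hq1] with x hx
      exact hx.trans_lt hq2
  refine ⟨Real.exp c, Real.exp_pos _, hlim, ?_⟩
  intro N hN ε hε
  by_contra hcon
  rw [Filter.not_eventually] at hcon
  have h4 : ∀ j : ℕ, ∃ x : ℝ, 0 < x ∧ x < 1 / ((j : ℝ) + 1) ∧ ¬ ∀ t ∈ CK N,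
      x * ‖deriv A (θ * I + x * t)‖ ≤ ε * ‖A (θ * I + x * t)‖ := by
    intro j
    have hj : (0 : ℝ) < 1 / ((j : ℝ) + 1) := by positivity
    obtain ⟨x, h5, h6⟩ := (hcon.and_eventually (Ioo_mem_nhdsGT hj)).exists
    exact ⟨x, h6.1, h6.2, h5⟩
  choose y hy0 hy1 hy2 using h4
  have hyt : Tendsto y atTop (𝓝 0) :=
    squeeze_zero (fun j => (hy0 j).le) (fun j => (hy1 j).le) tendsto_one_div_add_atTop_nhds_zero_nat
  have hyg : Tendsto y atTop (𝓝[>] 0) := by
    rw [tendsto_nhdsWithin_iff]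
    exact ⟨hyt, Eventually.of_forall hy0⟩
  have hfy := h2 (Real.exp c) (Real.exp_pos _) (fun q hq => (hlim.eventually (gt_mem_nhds hq)).mono
    fun x hx => hx.le) y hy0 hyt (hlim.comp hyg) N hN ε hε
  obtain ⟨j, hj⟩ := hfy.exists
  exact hy2 j hj

end Pool.Agent.TH425.BF
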