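import Mathlib
import Pool.Agent.TH425.BF.B3

set_option autoImplicit false

open Complex Topology Filter Metric MeasureTheory Set

namespace Pool.Agent.TH425.BF

theorem exp_small {δ v : ℝ} (hδ : 0 ≤ δ) (hδ1 : δ ≤ 1 / 8) :
    Real.exp (δ * v) - 1 ≤ 8 * δ * Real.exp (v / 8) := by
  have h := convexOn_exp.2 (mem_univ (v / 8)) (mem_univ (0 : ℝ)) (show 0 ≤ 8 * δ by linarith)
    (show 0 ≤ 1 - 8 * δ by linarith) (by ring)
  simp only [smul_eq_mul, mul_zero, add_zero, Real.exp_zero, mul_one] at h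
  have e : 8 * δ * (v / 8) = δ * v := by ring
  rw [e] at h
  linarith

theorem norm_exp_sub_one_le_real (z : ℂ) : ‖exp z - 1‖ ≤ Real.exp ‖z‖ - 1 := by
  have h := Complex.norm_exp_sub_sum_le_exp_norm_sub_sum z 1
  simpa using h

theorem sqrt_exp_half : Real.exp (1 / 2) ≤ 7 / 4 := by
  have h1 : Real.exp (1 / 2) ^ 2 = Real.exp 1 := by
    rw [← Real.exp_nat_mul]; norm_num
  have h2 := Real.exp_one_lt_d9
  by_contra h
  push Not at h
  nlinarith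

theorem F_ratio {b b' H : ℂ → ℂ} (D : Dat b b' H) {c : ℂ} {δ : ℝ} (hc : ‖c‖ ≤ δ)
    (hδ1 : δ ≤ 1 / 8) {l t θ θ' : ℝ} (ht : 0 < t) (htl : t ≤ l) (hl : l ≤ 3) (hθ : |θ' - θ| ≤ l) :
    ‖exp (c * b (pt t θ')) - exp (c * b (pt l θ))‖ ≤
      14 * δ * ‖exp (c * b (pt l θ))‖ * (Real.sqrt l / Real.sqrt t) := by
  have hl0 : 0 < l := ht.trans_le htl
  have hδ0 : 0 ≤ δ := (norm_nonneg _).trans hc
  set z : ℂ := c * (b (pt t θ') - b (pt l θ)) with hz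
  have h1 : exp (c * b (pt t θ')) = exp (c * b (pt l θ)) * exp z := by
    rw [← exp_add, hz]; congr 1; ring
  have h2 : exp (c * b (pt t θ')) - exp (c * b (pt l θ)) = exp (c * b (pt l θ)) * (exp z - 1) := by
    rw [h1]; ring
  rw [h2, norm_mul]
  set v : ℝ := 4 * Real.log (l / t) + 4 with hv
  have hb : ‖b (pt t θ') - b (pt l θ)‖ ≤ v := by
    have h3 := osc_ver D ht htl hl θ'
    have h4 := osc_hor D hl0 hl θ θ'
    have h5 : 4 / l * |θ' - θ| ≤ 4 := by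
      calc 4 / l * |θ' - θ| ≤ 4 / l * l := by gcongr
        _ = 4 := by field_simp
    have h6 : b (pt t θ') - b (pt l θ) = (b (pt t θ') - b (pt l θ')) + (b (pt l θ') - b (pt l θ)) := by
      ring
    rw [h6]
    refine (norm_add_le _ _).trans ?_
    linarith
  have hzv : ‖z‖ ≤ δ * v := by
    rw [hz, norm_mul]
    have := norm_nonneg (b (pt t θ') - b (pt l θ))
    gcongr
  have h3 : ‖exp z - 1‖ ≤ 14 * δ * (Real.sqrt l / Real.sqrt t) := by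
    refine (norm_exp_sub_one_le_real z).trans ?_
    have h4 : Real.exp ‖z‖ ≤ Real.exp (δ * v) := Real.exp_le_exp.mpr hzv
    have h5 := exp_small (v := v) hδ0 hδ1
    have h6 : Real.exp (v / 8) = Real.exp (1 / 2) * (Real.sqrt l / Real.sqrt t) := by
      rw [← Real.sqrt_div hl0.le]
      have hy : 0 < l / t := by positivity
      have h7 : v / 8 = 1 / 2 + Real.log (Real.sqrt (l / t)) := by
        rw [Real.log_sqrt hy.le, hv]; ring
      rw [h7, Real.exp_add, Real.exp_log (Real.sqrt_pos.mpr hy)]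
    have h7 : 8 * δ * Real.exp (v / 8) ≤ 14 * δ * (Real.sqrt l / Real.sqrt t) := by
      rw [h6]
      have h8 : 0 ≤ Real.sqrt l / Real.sqrt t := by positivity
      have h9 := sqrt_exp_half
      have h10 : 0 ≤ δ * (Real.sqrt l / Real.sqrt t) := by positivity
      nlinarith
    linarith
  calc ‖exp (c * b (pt l θ))‖ * ‖exp z - 1‖
      ≤ ‖exp (c * b (pt l θ))‖ * (14 * δ * (Real.sqrt l / Real.sqrt t)) := by gcongr
    _ = 14 * δ * ‖exp (c * b (pt l θ))‖ * (Real.sqrt l / Real.sqrt t) := by ring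

theorem Gm_deriv' {f K : ℂ → ℂ} (hK : ∀ s ∈ HP, HasDerivAt K (f s) s) (θ₀ θ₁ : ℝ) {t : ℝ}
    (ht : 0 < t) : HasDerivAt (Gm K θ₀ θ₁) (f (pt t θ₁) - f (pt t θ₀)) t := by
  have h : ∀ θ : ℝ, HasDerivAt (fun t : ℝ => K (pt t θ)) (f (pt t θ)) t := by
    intro θ
    have h1 := hK (pt t θ) (pt_mem ht)
    have h2 : HasDerivAt (fun t : ℝ => pt t θ) 1 t := by
      have h3 : HasDerivAt (fun t : ℝ => (t : ℂ)) 1 t := Complex.ofRealCLM.hasDerivAt
      exact h3.add_const _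
    have h3 := h1.scomp t h2
    rw [one_smul] at h3
    exact h3
  exact (h θ₁).sub (h θ₀)

theorem lim_of_bound {V V' : ℝ → ℂ} {C l : ℝ} (hl : 0 < l) (hC : 0 ≤ C)
    (hV : ∀ t, 0 < t → HasDerivAt V (V' t) t)
    (hV' : ∀ t, 0 < t → t ≤ l → ‖V' t‖ ≤ C / Real.sqrt t) :
    ∃ c : ℂ, Tendsto V (𝓝[>] 0) (𝓝 c) ∧ ∀ t, 0 < t → t ≤ l → ‖V t - c‖ ≤ 2 * C * Real.sqrt t := by
  have hdiff : ∀ t t' : ℝ, 0 < t' → t' ≤ t → t ≤ l →
      ‖V t - V t'‖ ≤ 2 * C * (Real.sqrt t - Real.sqrt t') := by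
    intro t t' ht' htt htl
    have h := image_norm_le_of_norm_deriv_right_le_deriv_boundary' (a := t') (b := t)
      (f := fun x => V x - V t') (f' := V')
      (B := fun x => 2 * C * (Real.sqrt x - Real.sqrt t'))
      (B' := fun x => 2 * C * (1 / (2 * Real.sqrt x))) ?_ ?_ (by simp) ?_ ?_ ?_
      (right_mem_Icc.mpr htt)
    · exact h
    · intro x hx
      exact ((hV x (ht'.trans_le hx.1)).sub_const _).continuousAt.continuousWithinAt
    · intro x hx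
      exact ((hV x (ht'.trans_le hx.1)).sub_const _).hasDerivWithinAt
    · exact (by fun_prop : Continuous fun x => 2 * C * (Real.sqrt x - Real.sqrt t')).continuousOn
    · intro x hx
      have hx0 : 0 < x := ht'.trans_le hx.1
      exact (((Real.hasDerivAt_sqrt hx0.ne').sub_const _).const_mul _).hasDerivWithinAt
    · intro x hx
      have hx0 : 0 < x := ht'.trans_le hx.1
      refine (hV' x hx0 (hx.2.le.trans htl)).trans (le_of_eq ?_)
      have : 0 < Real.sqrt x := Real.sqrt_pos.mpr hx0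
      field_simp
  have hlip : ∀ t t' : ℝ, 0 < t' → t' ≤ t → t ≤ l → ‖V t - V t'‖ ≤ 2 * C * Real.sqrt t := by
    intro t t' h1 h2 h3
    refine (hdiff t t' h1 h2 h3).trans ?_
    have := Real.sqrt_nonneg t'
    gcongr
    linarith
  have hcau : Cauchy (map V (𝓝[>] 0)) := by
    rw [Metric.cauchy_iff]
    refine ⟨inferInstance, fun δ hδ => ?_⟩
    have h1 : Tendsto (fun x : ℝ => 2 * C * Real.sqrt x) (𝓝[>] 0) (𝓝 0) := by
      have : Continuous fun x : ℝ => 2 * C * Real.sqrt x := by fun_prop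
      have h2 := (this.tendsto 0).mono_left (nhdsWithin_le_nhds : 𝓝[>] (0 : ℝ) ≤ 𝓝 0)
      simpa using h2
    have h2 : ∀ᶠ x : ℝ in 𝓝[>] 0, 2 * C * Real.sqrt x < δ / 2 :=
      h1.eventually (gt_mem_nhds (by linarith))
    obtain ⟨m, hm0, hm⟩ := (mem_nhdsGT_iff_exists_Ioo_subset).mp h2
    set m' : ℝ := min m l with hm'
    have hm'0 : 0 < m' := lt_min hm0 hl
    set y : ℝ := m' / 2 with hy
    have hy0 : 0 < y := by positivity
    have hym : y < m := by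
      have := min_le_left m l
      rw [hy]; linarith
    have hyl : y ≤ l := by
      have := min_le_right m l
      rw [hy]; linarith
    refine ⟨V '' Ioc 0 y, image_mem_map (Ioc_mem_nhdsGT hy0), ?_⟩
    rintro _ ⟨x, hx, rfl⟩ _ ⟨z, hz, rfl⟩
    have h3 := hlip y x hx.1 hx.2 hyl
    have h4 := hlip y z hz.1 hz.2 hyl
    have h5 : 2 * C * Real.sqrt y < δ / 2 := hm ⟨hy0, hym⟩
    rw [dist_eq_norm]
    have h6 : V x - V z = (V y - V z) - (V y - V x) := by ring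
    rw [h6]
    exact (norm_sub_le _ _).trans_lt (by linarith)
  obtain ⟨c, hc⟩ := CompleteSpace.complete hcau
  have hc' : Tendsto V (𝓝[>] 0) (𝓝 c) := hc
  refine ⟨c, hc', fun t ht htl => ?_⟩
  refine le_of_tendsto (hc'.const_sub (V t)).norm ?_
  filter_upwards [Ioo_mem_nhdsGT ht] with x hx
  exact hlip t x hx.1 hx.2.le htl

/-- data for the exponential of a small multiple of the logarithm -/
structure EDat (b b' H : ℂ → ℂ) (c : ℂ) (δ : ℝ) (K : ℂ → ℂ) : Prop where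
  D : Dat b b' H
  hc : ‖c‖ ≤ δ
  hδ : δ ≤ 1 / 1000
  hK : ∀ s ∈ HP, HasDerivAt K (exp (c * b s)) s

theorem EDat.δ_nonneg {b b' H K : ℂ → ℂ} {c : ℂ} {δ : ℝ} (E : EDat b b' H c δ K) : 0 ≤ δ :=
  (norm_nonneg _).trans E.hc

theorem EDb_spec {b b' H K : ℂ → ℂ} {c : ℂ} {δ : ℝ} (E : EDat b b' H c δ K) {θ₀ θ₁ θ l : ℝ}
    (hl : 0 < l) (hl3 : l ≤ 3) (h0 : |θ₀ - θ| ≤ l) (h1 : |θ₁ - θ| ≤ l) :
    Tendsto (Gm K θ₀ θ₁) (𝓝[>] 0) (𝓝 (Db K θ₀ θ₁)) ∧ ∀ t, 0 < t → t ≤ l →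
      ‖Gm K θ₀ θ₁ t - Db K θ₀ θ₁‖ ≤
        2 * (28 * δ * ‖exp (c * b (pt l θ))‖ * Real.sqrt l) * Real.sqrt t := by
  have hδ0 := E.δ_nonneg
  have hδ := E.hδ
  obtain ⟨w, hw1, hw2⟩ := lim_of_bound (V := Gm K θ₀ θ₁)
    (V' := fun t => exp (c * b (pt t θ₁)) - exp (c * b (pt t θ₀)))
    (C := 28 * δ * ‖exp (c * b (pt l θ))‖ * Real.sqrt l) hl (by positivity)
    (fun t ht => Gm_deriv' E.hK θ₀ θ₁ ht) (by
      intro t ht htl
      have e1 := F_ratio E.D E.hc (by linarith) ht htl hl3 h1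
      have e0 := F_ratio E.D E.hc (by linarith) ht htl hl3 h0
      have : exp (c * b (pt t θ₁)) - exp (c * b (pt t θ₀)) =
          (exp (c * b (pt t θ₁)) - exp (c * b (pt l θ))) -
          (exp (c * b (pt t θ₀)) - exp (c * b (pt l θ))) := by ring
      rw [this]
      refine (norm_sub_le _ _).trans ?_
      have e2 : 28 * δ * ‖exp (c * b (pt l θ))‖ * Real.sqrt l / Real.sqrt t =
          14 * δ * ‖exp (c * b (pt l θ))‖ * (Real.sqrt l / Real.sqrt t) +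
          14 * δ * ‖exp (c * b (pt l θ))‖ * (Real.sqrt l / Real.sqrt t) := by ring
      rw [e2]
      linarith)
  have hDw : Db K θ₀ θ₁ = w := hw1.limUnder_eq
  rw [hDw]
  exact ⟨hw1, hw2⟩

theorem EDb_coarse {b b' H K : ℂ → ℂ} {c : ℂ} {δ : ℝ} (E : EDat b b' H c δ K) {θ₀ θ₁ θ l : ℝ}
    (hl : 0 < l) (hl3 : l ≤ 3) (hθ : θ₁ - θ₀ = l) (h0 : θ₀ ≤ θ) (h1 : θ ≤ θ₁) :
    ‖Db K θ₀ θ₁ - exp (c * b (pt l θ)) * (l * I)‖ ≤ 70 * δ * ‖exp (c * b (pt l θ))‖ * l := by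
  have hδ0 := E.δ_nonneg
  have hδ := E.hδ
  have h01 : θ₀ ≤ θ₁ := h0.trans h1
  set F0 := exp (c * b (pt l θ)) with hF0
  have ha : ‖Gm K θ₀ θ₁ l - F0 * (l * I)‖ ≤ 14 * δ * ‖F0‖ * l := by
    have h := Convex.norm_image_sub_le_of_norm_hasDerivWithin_le (s := Icc θ₀ θ₁)
      (f := fun t : ℝ => K (pt l t) - F0 * (t * I))
      (f' := fun t => I * exp (c * b (pt l t)) - F0 * (1 * I)) (C := 14 * δ * ‖F0‖) (x := θ₀)
      (y := θ₁)
      (fun t _ => by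
        apply HasDerivAt.hasDerivWithinAt
        have h1 := E.hK (pt l t) (pt_mem hl)
        have h3 : HasDerivAt (fun t : ℝ => (t : ℂ)) 1 t := Complex.ofRealCLM.hasDerivAt
        have h2 : HasDerivAt (fun t : ℝ => pt l t) I t := by
          have h4 := (h3.mul_const I).const_add (l : ℂ)
          rw [one_mul] at h4
          exact h4
        have h5 := h1.scomp t h2
        exact h5.sub ((h3.mul_const I).const_mul F0)) (by
        intro t ht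
        have h2 : I * exp (c * b (pt l t)) - F0 * (1 * I) = I * (exp (c * b (pt l t)) - F0) := by ring
        rw [h2, norm_mul, norm_I, one_mul]
        have h3 := F_ratio E.D E.hc (by linarith) hl le_rfl hl3 (θ := θ) (θ' := t) (by
          rw [abs_le]; constructor <;> linarith [ht.1, ht.2])
        rw [div_self (Real.sqrt_pos.mpr hl).ne', mul_one] at h3
        exact h3) (convex_Icc _ _)
        (left_mem_Icc.mpr h01) (right_mem_Icc.mpr h01)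
    rw [Real.norm_eq_abs, hθ, abs_of_pos hl] at h
    refine le_trans (le_of_eq ?_) h
    congr 1
    unfold Gm
    have : (l : ℂ) = θ₁ - θ₀ := by rw [← hθ]; push_cast; ring
    rw [this]; ring
  have hb := (EDb_spec E (θ := θ) hl hl3 (θ₀ := θ₀) (θ₁ := θ₁)
    (by rw [abs_le]; constructor <;> linarith) (by rw [abs_le]; constructor <;> linarith)).2 l hl le_rfl
  rw [← hF0] at hb
  have h4 : 2 * (28 * δ * ‖F0‖ * Real.sqrt l) * Real.sqrt l = 56 * δ * ‖F0‖ * l := by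
    have := Real.mul_self_sqrt hl.le
    linear_combination (56 * δ * ‖F0‖) * this
  rw [h4] at hb
  have h5 : Db K θ₀ θ₁ - F0 * (l * I) = (Gm K θ₀ θ₁ l - F0 * (l * I)) -
      (Gm K θ₀ θ₁ l - Db K θ₀ θ₁) := by ring
  rw [h5]
  refine (norm_sub_le _ _).trans ?_
  linarith

theorem EDb_add {b b' H K : ℂ → ℂ} {c : ℂ} {δ : ℝ} (E : EDat b b' H c δ K) {θ₀ θ₁ θ₂ : ℝ}
    (h01 : |θ₁ - θ₀| ≤ 3) (h12 : |θ₂ - θ₁| ≤ 3) (h02 : |θ₂ - θ₀| ≤ 3) :
    Db K θ₀ θ₂ = Db K θ₀ θ₁ + Db K θ₁ θ₂ := by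
  have h3 : (0 : ℝ) < 3 := by norm_num
  have h1 := (EDb_spec E (θ := θ₀) h3 le_rfl (θ₀ := θ₀) (θ₁ := θ₁) (by simp) h01).1
  have h2 := (EDb_spec E (θ := θ₁) h3 le_rfl (θ₀ := θ₁) (θ₁ := θ₂) (by simp) h12).1
  have h4 := (EDb_spec E (θ := θ₀) h3 le_rfl (θ₀ := θ₀) (θ₁ := θ₂) (by simp) h02).1
  refine tendsto_nhds_unique h4 ((h1.add h2).congr fun t => ?_)
  unfold Gm; ring

/-- the complex dyadic averages -/
noncomputable def cs (K : ℂ → ℂ) (n : ℕ) (k : ℤ) : ℂ :=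
  Db K (k / 2 ^ n) ((k + 1) / 2 ^ n) * (-I) * 2 ^ n

theorem cs_add {b b' H K : ℂ → ℂ} {c : ℂ} {δ : ℝ} (E : EDat b b' H c δ K) (n : ℕ) (k : ℤ) :
    cs K n k = (cs K (n + 1) (2 * k) + cs K (n + 1) (2 * k + 1)) / 2 := by
  have h2 : (0 : ℝ) < 2 ^ n := by positivity
  have h2' : (1 : ℝ) ≤ 2 ^ n := one_le_pow₀ (by norm_num)
  have e0 : ((2 * k : ℤ) : ℝ) / 2 ^ (n + 1) = k / 2 ^ n := by push_cast; field_simp; ring
  have e1 : (((2 * k : ℤ) : ℝ) + 1) / 2 ^ (n + 1) = (2 * k + 1) / 2 ^ (n + 1) := by push_cast; rfl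
  have e2 : ((2 * k + 1 : ℤ) : ℝ) / 2 ^ (n + 1) = (2 * k + 1) / 2 ^ (n + 1) := by push_cast; rfl
  have e3 : (((2 * k + 1 : ℤ) : ℝ) + 1) / 2 ^ (n + 1) = (k + 1) / 2 ^ n := by
    push_cast; field_simp; ring
  unfold cs
  rw [e0, e1, e2, e3]
  have hadd := EDb_add E (θ₀ := (k : ℝ) / 2 ^ n) (θ₁ := (2 * (k : ℝ) + 1) / 2 ^ (n + 1))
    (θ₂ := ((k : ℝ) + 1) / 2 ^ n) ?_ ?_ ?_
  · rw [hadd, pow_succ]; ring
  · have : (2 * (k : ℝ) + 1) / 2 ^ (n + 1) - (k : ℝ) / 2 ^ n = 1 / 2 ^ (n + 1) := by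
      field_simp; ring
    rw [this, abs_of_pos (by positivity), div_le_iff₀ (by positivity), pow_succ]
    linarith
  · have : ((k : ℝ) + 1) / 2 ^ n - (2 * (k : ℝ) + 1) / 2 ^ (n + 1) = 1 / 2 ^ (n + 1) := by
      field_simp; ring
    rw [this, abs_of_pos (by positivity), div_le_iff₀ (by positivity), pow_succ]
    linarith
  · have : ((k : ℝ) + 1) / 2 ^ n - (k : ℝ) / 2 ^ n = 1 / 2 ^ n := by
      field_simp; ring
    rw [this, abs_of_pos (by positivity), div_le_iff₀ (by positivity)]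
    linarith

/-- the complex dyadic martingale -/
noncomputable def cm (K : ℂ → ℂ) (n : ℕ) (θ : ℝ) : ℂ := cs K n ⌊2 ^ n * θ⌋

theorem cm_close {b b' H K : ℂ → ℂ} {c : ℂ} {δ : ℝ} (E : EDat b b' H c δ K) (n : ℕ) (θ : ℝ) :
    ‖cm K n θ - exp (c * b (pt (1 / 2 ^ n) θ))‖ ≤ 70 * δ * ‖exp (c * b (pt (1 / 2 ^ n) θ))‖ := by
  have h2 : (0 : ℝ) < 2 ^ n := by positivity
  have h2' : (1 : ℝ) ≤ 2 ^ n := one_le_pow₀ (by norm_num)
  set k : ℤ := ⌊2 ^ n * θ⌋ with hk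
  have hk0 : (k : ℝ) / 2 ^ n ≤ θ := by
    rw [div_le_iff₀ h2, mul_comm]; exact Int.floor_le _
  have hk1 : θ ≤ ((k : ℝ) + 1) / 2 ^ n := by
    rw [le_div_iff₀ h2, mul_comm]; exact (Int.lt_floor_add_one _).le
  have h := EDb_coarse E (l := 1 / 2 ^ n) (θ₀ := (k : ℝ) / 2 ^ n) (θ₁ := ((k : ℝ) + 1) / 2 ^ n)
    (by positivity) (by rw [div_le_iff₀ h2]; linarith) (by field_simp; ring) hk0 hk1
  set F0 := exp (c * b (pt (1 / 2 ^ n) θ)) with hF0
  have h4 : cm K n θ - F0 = (Db K ((k : ℝ) / 2 ^ n) (((k : ℝ) + 1) / 2 ^ n) -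
      F0 * (((1 / 2 ^ n : ℝ) : ℂ) * I)) * ((-I) * 2 ^ n) := by
    unfold cm cs
    rw [← hk]
    push_cast
    have h5 : (2 : ℂ) ^ n ≠ 0 := pow_ne_zero _ two_ne_zero
    field_simp
    linear_combination (-F0) * Complex.I_sq
  rw [h4, norm_mul]
  have h5 : ‖(-I) * (2 : ℂ) ^ n‖ = 2 ^ n := by
    rw [norm_mul, norm_neg, norm_I, norm_pow]
    norm_num
  rw [h5]
  have h6 := mul_le_mul_of_nonneg_right h h2.le
  refine h6.trans (le_of_eq ?_)
  field_simp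

theorem cm_step {b b' H K : ℂ → ℂ} {c : ℂ} {δ : ℝ} (E : EDat b b' H c δ K) (n : ℕ) (θ : ℝ) :
    ‖cm K (n + 1) θ‖ ≤ 2 * ‖cm K n θ‖ := by
  have h2 : (0 : ℝ) < 2 ^ n := by positivity
  have h2' : (1 : ℝ) ≤ 2 ^ n := one_le_pow₀ (by norm_num)
  have hδ0 := E.δ_nonneg
  have hδ := E.hδ
  have h0 := cm_close E n θ
  have h1 := cm_close E (n + 1) θ
  set F0 := exp (c * b (pt (1 / 2 ^ n) θ)) with hF0
  set F1 := exp (c * b (pt (1 / 2 ^ (n + 1)) θ)) with hF1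
  have h3 := F_ratio E.D E.hc (by linarith) (t := 1 / 2 ^ (n + 1)) (l := 1 / 2 ^ n)
    (by positivity) (by
    apply one_div_le_one_div_of_le h2
    rw [pow_succ]; linarith) (by rw [div_le_iff₀ h2]; linarith) (θ := θ) (θ' := θ) (by
      rw [sub_self, abs_zero]; positivity)
  rw [← hF0, ← hF1] at h3
  have h4 : Real.sqrt (1 / 2 ^ n) / Real.sqrt (1 / 2 ^ (n + 1)) ≤ 2 := by
    rw [← Real.sqrt_div (by positivity)]
    have h5 : (1 / 2 ^ n : ℝ) / (1 / 2 ^ (n + 1)) = 2 := by rw [pow_succ]; field_simp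
    rw [h5]
    rw [Real.sqrt_le_left (by norm_num)]
    norm_num
  have hF0n : 0 ≤ ‖F0‖ := norm_nonneg _
  have h5 : ‖F1 - F0‖ ≤ 28 / 1000 * ‖F0‖ := by
    refine h3.trans ?_
    calc 14 * δ * ‖F0‖ * (Real.sqrt (1 / 2 ^ n) / Real.sqrt (1 / 2 ^ (n + 1)))
        ≤ 14 * (1 / 1000) * ‖F0‖ * 2 := by gcongr
      _ = 28 / 1000 * ‖F0‖ := by ring
  have h6 : ‖cm K n θ - F0‖ ≤ 7 / 100 * ‖F0‖ := by
    refine h0.trans ?_
    calc 70 * δ * ‖F0‖ ≤ 70 * (1 / 1000) * ‖F0‖ := by gcongr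
      _ = _ := by ring
  have h7 : ‖cm K (n + 1) θ - F1‖ ≤ 7 / 100 * ‖F1‖ := by
    refine h1.trans ?_
    calc 70 * δ * ‖F1‖ ≤ 70 * (1 / 1000) * ‖F1‖ := by gcongr
      _ = _ := by ring
  have h8 : ‖F1‖ ≤ 1.028 * ‖F0‖ := by
    have : F1 = (F1 - F0) + F0 := by ring
    have h9 := norm_add_le (F1 - F0) F0
    rw [← this] at h9
    linarith
  have h9 : ‖cm K (n + 1) θ‖ ≤ 1.07 * ‖F1‖ := by
    have : cm K (n + 1) θ = (cm K (n + 1) θ - F1) + F1 := by ring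
    have h9 := norm_add_le (cm K (n + 1) θ - F1) F1
    rw [← this] at h9
    linarith
  have h10 : 0.93 * ‖F0‖ ≤ ‖cm K n θ‖ := by
    have : F0 = cm K n θ - (cm K n θ - F0) := by ring
    have h9 := norm_sub_le (cm K n θ) (cm K n θ - F0)
    rw [← this] at h9
    linarith
  linarith

end Pool.Agent.TH425.BF
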