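import Mathlib
import Pool.Agent.TH425.BF.D1

set_option autoImplicit false

open Complex Topology Filter Metric MeasureTheory Set

namespace Pool.Agent.TH425.BF

/-- real dyadic process attached to an array of averages -/
noncomputable def dp (a : ℕ → ℤ → ℝ) (n : ℕ) (θ : ℝ) : ℝ := a n ⌊2 ^ n * θ⌋

theorem dp_adapted (a : ℕ → ℤ → ℝ) : StronglyAdapted Fil (dp a) := by
  intro n
  have h1 : Measurable[Fil n] (fun θ : ℝ => ⌊(2 : ℝ) ^ n * θ⌋) := by
    exact comap_measurable _
  have h2 : Measurable (a n) := measurable_from_top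
  exact (h2.comp h1).stronglyMeasurable

theorem dp_meas (a : ℕ → ℤ → ℝ) (n : ℕ) : Measurable (dp a n) :=
  ((dp_adapted a n).measurable).mono (Fil.le n) le_rfl

theorem dp_intOn (a : ℕ → ℤ → ℝ) (n : ℕ) (p : ℤ) :
    IntegrableOn (dp a n) (Ico (p : ℝ) (p + 1)) := by
  have h2 : (0 : ℝ) < 2 ^ n := by positivity
  set t : Finset ℤ := Finset.Ico (2 ^ n * p) (2 ^ n * (p + 1)) with ht
  apply Measure.integrableOn_of_bounded (M := ∑ k ∈ t, |a n k|) (by simp)
    (dp_meas a n).aestronglyMeasurable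
  rw [ae_restrict_iff' measurableSet_Ico]
  refine Eventually.of_forall fun θ hθ => ?_
  rw [Real.norm_eq_abs]
  unfold dp
  have hk : ⌊(2 : ℝ) ^ n * θ⌋ ∈ t := by
    rw [ht, Finset.mem_Ico]
    constructor
    · rw [Int.le_floor]
      push_cast
      have := hθ.1
      gcongr
    · rw [Int.floor_lt]
      push_cast
      have := hθ.2
      gcongr
  exact Finset.single_le_sum (f := fun k => |a n k|) (fun k _ => abs_nonneg _) hk

theorem dp_int_Jn (a : ℕ → ℤ → ℝ) (n : ℕ) (k : ℤ) : ∫ θ in Jn n k, dp a n θ = a n k / 2 ^ n := by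
  have h2 : (0 : ℝ) < 2 ^ n := by positivity
  have h1 : ∫ θ in Jn n k, dp a n θ = ∫ _ in Jn n k, a n k := by
    apply setIntegral_congr_fun measurableSet_Ico
    intro θ hθ
    unfold dp
    rw [mem_Jn.mp hθ]
  rw [h1, setIntegral_const]
  have h3 : (volume : Measure ℝ).real (Jn n k) = 1 / 2 ^ n := by
    unfold Jn
    rw [Measure.real, Real.volume_Ico, ENNReal.toReal_ofReal]
    · field_simp; ring
    · rw [← sub_div]
      apply div_nonneg _ h2.le
      linarith
  rw [h3, smul_eq_mul]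
  ring

theorem dp_int_Jn_succ {a : ℕ → ℤ → ℝ}
    (ha : ∀ n k, a n k = (a (n + 1) (2 * k) + a (n + 1) (2 * k + 1)) / 2) {n : ℕ} {p k : ℤ}
    (hk : 2 ^ n * p ≤ k)
    (hk2 : k < 2 ^ n * (p + 1)) : ∫ θ in Jn n k, dp a (n + 1) θ = a n k / 2 ^ n := by
  have hI := dp_intOn a (n + 1) p
  have hs := Jn_sub hk hk2
  have hs1 : Jn (n + 1) (2 * k) ⊆ Jn n k := by rw [Jn_split n k]; exact subset_union_left
  have hs2 : Jn (n + 1) (2 * k + 1) ⊆ Jn n k := by rw [Jn_split n k]; exact subset_union_right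
  have hdis : Disjoint (Jn (n + 1) (2 * k)) (Jn (n + 1) (2 * k + 1)) := by
    rw [Set.disjoint_left]
    intro θ h1 h2
    rw [mem_Jn] at h1 h2
    omega
  rw [Jn_split n k, setIntegral_union hdis measurableSet_Ico (hI.mono_set (hs1.trans hs))
    (hI.mono_set (hs2.trans hs)), dp_int_Jn, dp_int_Jn, ha n k, pow_succ]
  field_simp

theorem dp_martingale {a : ℕ → ℤ → ℝ}
    (ha : ∀ n k, a n k = (a (n + 1) (2 * k) + a (n + 1) (2 * k + 1)) / 2) (p : ℤ) :
    Martingale (dp a) Fil (volume.restrict (Ico (p : ℝ) (p + 1))) := by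
  classical
  have : IsFiniteMeasure ((volume : Measure ℝ).restrict (Ico (p : ℝ) (p + 1))) :=
    ⟨by rw [Measure.restrict_apply_univ, Real.volume_Ico]; exact ENNReal.ofReal_lt_top⟩
  apply martingale_of_setIntegral_eq_succ (dp_adapted a) (fun n => dp_intOn a n p)
  intro n s hs
  obtain ⟨A, _, rfl⟩ := hs
  set t : Finset ℤ := (Finset.Ico (2 ^ n * p) (2 ^ n * (p + 1))).filter (· ∈ A) with ht
  have hms : MeasurableSet ((fun θ : ℝ => ⌊(2 : ℝ) ^ n * θ⌋) ⁻¹' A) := by
    have h1 : Measurable fun θ : ℝ => ⌊(2 : ℝ) ^ n * θ⌋ := by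
      have h1 : Measurable fun θ : ℝ => (2 : ℝ) ^ n * θ := by fun_prop
      exact h1.floor
    exact h1 trivial
  have hset : ((fun θ : ℝ => ⌊(2 : ℝ) ^ n * θ⌋) ⁻¹' A) ∩ Ico (p : ℝ) (p + 1) = ⋃ k ∈ t, Jn n k := by
    ext θ
    simp only [mem_inter_iff, mem_preimage, mem_iUnion, mem_Jn, ht, Finset.mem_filter,
      Finset.mem_Ico, exists_prop]
    have h2 : (0 : ℝ) < 2 ^ n := by positivity
    constructor
    · rintro ⟨h1, h3, h4⟩
      refine ⟨_, ⟨⟨?_, ?_⟩, h1⟩, rfl⟩
      · rw [Int.le_floor]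
        push_cast
        gcongr
      · rw [Int.floor_lt]
        push_cast
        gcongr
    · rintro ⟨k, ⟨⟨h1, h3⟩, h4⟩, h5⟩
      refine ⟨by rw [h5]; exact h4, Jn_sub h1 h3 (mem_Jn.mpr h5)⟩
  have hpw : (t : Set ℤ).Pairwise (Function.onFun Disjoint (Jn n)) := by
    intro i _ j _ hij
    rw [Function.onFun, Set.disjoint_left]
    intro θ h1 h2
    rw [mem_Jn] at h1 h2
    exact hij (h1.symm.trans h2)
  have hmem : ∀ k ∈ t, 2 ^ n * p ≤ k ∧ k < 2 ^ n * (p + 1) := by
    intro k hk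
    have := (Finset.mem_filter.mp hk).1
    exact Finset.mem_Ico.mp this
  rw [Measure.restrict_restrict hms, hset,
    integral_biUnion_finset (s := Jn n) t (fun k _ => measurableSet_Ico) hpw
      (fun k hk => (dp_intOn a n p).mono_set (Jn_sub (hmem k hk).1 (hmem k hk).2)),
    integral_biUnion_finset (s := Jn n) t (fun k _ => measurableSet_Ico) hpw
      (fun k hk => (dp_intOn a (n + 1) p).mono_set (Jn_sub (hmem k hk).1 (hmem k hk).2))]
  apply Finset.sum_congr rfl
  intro k hk
  rw [dp_int_Jn, dp_int_Jn_succ ha (hmem k hk).1 (hmem k hk).2]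

/-- convergence on the set where a dominating adapted process stays bounded -/
theorem transform_conv {μ : Measure ℝ} [IsFiniteMeasure μ] {X N : ℕ → ℝ → ℝ} {C : ℝ} (hC : 1 ≤ C)
    (hX : Martingale X Fil μ) (hN : ∀ n, Measurable[Fil n] (N n))
    (hXN : ∀ n θ, |X n θ| ≤ N n θ) (hstep : ∀ n θ, N (n + 1) θ ≤ C * N n θ) :
    ∀ᵐ θ ∂μ, BddAbove (range fun n => N n θ) → ∃ c, Tendsto (fun n => X n θ) atTop (𝓝 c) := by
  classical
  have hK : ∀ K : ℕ, ∀ᵐ θ ∂μ, (∀ n, N n θ ≤ K) → ∃ c, Tendsto (fun n => X n θ) atTop (𝓝 c) := by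
    intro K
    set G : ℕ → Set ℝ := fun n => {θ | ∀ j ≤ n, N j θ ≤ K} with hG
    have hGm : ∀ n, MeasurableSet[Fil n] (G n) := by
      intro n
      have h1 : G n = ⋂ j : ℕ, ⋂ _ : j ≤ n, {θ | N j θ ≤ K} := by
        ext θ; simp [hG]
      rw [h1]
      refine MeasurableSet.iInter fun j => MeasurableSet.iInter fun hj => ?_
      have h2 : Measurable[Fil n] (N j) := (hN j).mono (Fil.mono hj) le_rfl
      exact h2 measurableSet_Iic
    set ξ : ℕ → ℝ → ℝ := fun n => (G n).indicator (fun _ => (1 : ℝ)) with hξ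
    have hξa : StronglyAdapted Fil ξ := by
      intro n
      exact (stronglyMeasurable_const (b := (1 : ℝ))).indicator (hGm n)
    have hξ1 : ∀ n θ, ξ n θ ≤ 1 := by
      intro n θ
      simp only [hξ, indicator_apply]
      split_ifs <;> norm_num
    have hξ0 : ∀ n θ, 0 ≤ ξ n θ := by
      intro n θ
      simp only [hξ, indicator_apply]
      split_ifs <;> norm_num
    have hY := hX.submartingale.sum_mul_sub hξa hξ1 hξ0
    set Y : ℕ → ℝ → ℝ := fun n => ∑ k ∈ Finset.range n, ξ k * (X (k + 1) - X k) with hYd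
    have hYs : ∀ n θ, Y (n + 1) θ = Y n θ + ξ n θ * (X (n + 1) θ - X n θ) := by
      intro n θ
      simp only [hYd, Finset.sum_range_succ, Pi.add_apply, Pi.mul_apply, Pi.sub_apply]
    have hY0 : ∀ θ, Y 0 θ = 0 := by
      intro θ; simp [hYd]
    have hgood : ∀ n θ, (∀ j < n, N j θ ≤ K) → Y n θ = X n θ - X 0 θ := by
      intro n θ
      induction n with
      | zero => intro _; rw [hY0]; ring
      | succ n ih =>
        intro h
        rw [hYs, ih (fun j hj => h j (hj.trans (Nat.lt_succ_self n)))]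
        have h1 : ξ n θ = 1 := by
          simp only [hξ]
          rw [indicator_of_mem]
          intro j hj
          exact h j (Nat.lt_succ_of_le hj)
        rw [h1]; ring
    have hNn : ∀ n θ, 0 ≤ N n θ := fun n θ => (abs_nonneg _).trans (hXN n θ)
    have hK0 : (0 : ℝ) ≤ K := Nat.cast_nonneg _
    have hbd : ∀ n θ, |Y n θ| ≤ (C + 1) * K := by
      intro n θ
      induction n with
      | zero => rw [hY0, abs_zero]; positivity
      | succ n ih =>
        by_cases h : ∀ j ≤ n, N j θ ≤ K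
        · rw [hgood (n + 1) θ (fun j hj => h j (Nat.lt_succ_iff.mp hj))]
          have h1 := hXN (n + 1) θ
          have h2 := hstep n θ
          have h3 := h n le_rfl
          have h4 := (hXN 0 θ).trans (h 0 (Nat.zero_le _))
          have h5 : C * N n θ ≤ C * K := by gcongr
          refine (abs_sub _ _).trans ?_
          linarith
        · rw [hYs]
          have h1 : ξ n θ = 0 := by
            simp only [hξ]
            exact indicator_of_notMem (show θ ∉ G n from h) _
          rw [h1, zero_mul, add_zero]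
          exact ih
    have hconv := hY.exists_ae_tendsto_of_bdd (R := (μ univ * ENNReal.ofReal ((C + 1) * K)).toNNReal) (by
      intro n
      have h1 := eLpNorm_le_of_ae_bound (p := 1) (μ := μ) (f := Y n) (C := (C + 1) * K)
        (Eventually.of_forall fun θ => by rw [Real.norm_eq_abs]; exact hbd n θ)
      refine h1.trans (le_of_eq ?_)
      rw [ENNReal.coe_toNNReal]
      · simp
      · exact ENNReal.mul_ne_top (measure_ne_top _ _) ENNReal.ofReal_ne_top)
    filter_upwards [hconv] with θ hθ h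
    obtain ⟨c, hc⟩ := hθ
    refine ⟨c + X 0 θ, (hc.add_const (X 0 θ)).congr fun n => ?_⟩
    have := hgood n θ (fun j _ => h j)
    simp only [hYd] at this ⊢
    rw [this]; ring
  filter_upwards [ae_all_iff.mpr hK] with θ hθ hb
  obtain ⟨B, hB⟩ := hb
  obtain ⟨K, hK⟩ := exists_nat_ge B
  exact hθ K fun n => (hB ⟨n, rfl⟩).trans hK

/-- Convergence of the complex dyadic martingale where it stays bounded. -/
theorem cm_conv {b b' H K : ℂ → ℂ} {c : ℂ} {δ : ℝ} (E : EDat b b' H c δ K) :
    ∀ᵐ θ : ℝ, BddAbove (range fun n => ‖cm K n θ‖) →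
      ∃ w, Tendsto (fun n => cm K n θ) atTop (𝓝 w) := by
  have hN : ∀ n, Measurable[Fil n] (fun θ => ‖cm K n θ‖) := by
    intro n
    exact (dp_adapted (fun n k => ‖cs K n k‖) n).measurable
  have hre : ∀ n k, (cs K n k).re = ((cs K (n + 1) (2 * k)).re + (cs K (n + 1) (2 * k + 1)).re) / 2 := by
    intro n k
    rw [cs_add E n k]
    simp [Complex.add_re]
  have him : ∀ n k, (cs K n k).im = ((cs K (n + 1) (2 * k)).im + (cs K (n + 1) (2 * k + 1)).im) / 2 := by
    intro n k
    rw [cs_add E n k]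
    simp [Complex.add_im]
  have hp : ∀ p : ℤ, ∀ᵐ θ : ℝ, θ ∈ Ico (p : ℝ) (p + 1) →
      BddAbove (range fun n => ‖cm K n θ‖) → ∃ w, Tendsto (fun n => cm K n θ) atTop (𝓝 w) := by
    intro p
    have : IsFiniteMeasure ((volume : Measure ℝ).restrict (Ico (p : ℝ) (p + 1))) :=
      ⟨by rw [Measure.restrict_apply_univ, Real.volume_Ico]; exact ENNReal.ofReal_lt_top⟩
    have h1 := transform_conv (C := 2) (by norm_num)
      (dp_martingale (a := fun n k => (cs K n k).re) hre p) hN
      (fun n θ => Complex.abs_re_le_norm _) (fun n θ => cm_step E n θ)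
    have h2 := transform_conv (C := 2) (by norm_num)
      (dp_martingale (a := fun n k => (cs K n k).im) him p) hN
      (fun n θ => Complex.abs_im_le_norm _) (fun n θ => cm_step E n θ)
    rw [← ae_restrict_iff' measurableSet_Ico]
    filter_upwards [h1, h2] with θ h3 h4 h5
    obtain ⟨x, hx⟩ := h3 h5
    obtain ⟨y, hy⟩ := h4 h5
    refine ⟨(x : ℂ) + y * I, ?_⟩
    have h6 := ((Complex.continuous_ofReal.tendsto x).comp hx).add
      (((Complex.continuous_ofReal.tendsto y).comp hy).mul_const I)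
    refine h6.congr fun n => ?_
    simp only [Function.comp, dp]
    exact Complex.re_add_im _
  filter_upwards [ae_all_iff.mpr hp] with θ hθ
  exact hθ ⌊θ⌋ ⟨Int.floor_le _, Int.lt_floor_add_one _⟩

end Pool.Agent.TH425.BF
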