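import Mathlib
import Pool.Agent.TH425.BF.D2
import Pool.Agent.TH425.BF.B5

set_option autoImplicit false

open Complex Topology Filter Metric MeasureTheory Set

namespace Pool.Agent.TH425.BF

/-- a small exponential with values near one along small steps has a bounded logarithm -/
theorem small_arg {z : ℂ} (h1 : |z.im| ≤ 3 / 2) (h2 : ‖exp z - 1‖ ≤ 3 / 10) : |z.im| ≤ 1 := by
  have hre : (exp z).re = Real.exp z.re * Real.cos z.im := Complex.exp_re z
  have him : (exp z).im = Real.exp z.re * Real.sin z.im := Complex.exp_im z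
  have hn : ‖exp z‖ = Real.exp z.re := Complex.norm_exp z
  have h3 : (7 : ℝ) / 10 ≤ Real.exp z.re := by
    rw [← hn]
    have : (1 : ℂ) = exp z - (exp z - 1) := by ring
    have h4 := norm_sub_le (exp z) (exp z - 1)
    rw [← this, norm_one] at h4
    linarith
  have h4 : |Real.exp z.re * Real.sin z.im| ≤ 3 / 10 := by
    have h5 := Complex.abs_im_le_norm (exp z - 1)
    rw [Complex.sub_im, Complex.one_im, sub_zero, him] at h5
    exact h5.trans h2
  rw [abs_mul, abs_of_pos (Real.exp_pos _)] at h4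
  have h5 : |Real.sin z.im| ≤ 3 / 7 := by
    have := abs_nonneg (Real.sin z.im)
    by_contra h
    push Not at h
    nlinarith
  have h6 : |Real.sin z.im| = Real.sin |z.im| := by
    have h7 : 0 ≤ Real.sin |z.im| := Real.sin_nonneg_of_nonneg_of_le_pi (abs_nonneg _)
      (by have := Real.pi_gt_three; linarith)
    rcases abs_cases z.im with ⟨h, _⟩ | ⟨h, _⟩
    · rw [h] at h7 ⊢; exact abs_of_nonneg h7
    · rw [h] at h7 ⊢
      rw [Real.sin_neg] at h7 ⊢
      exact abs_of_nonpos (by linarith)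
  rw [h6] at h5
  have h7 := Real.mul_le_sin (abs_nonneg z.im) (by have := Real.pi_gt_three; linarith)
  have hpi := Real.pi_lt_d2
  have hpi0 := Real.pi_pos
  have h8 : 2 / Real.pi * |z.im| ≤ 3 / 7 := h7.trans h5
  rw [div_mul_eq_mul_div, div_le_iff₀ hpi0] at h8
  linarith

/-- Almost everywhere a one-sided bound for the imaginary part forces a bound for the real
part. -/
theorem conj_bound {A b H : ℂ → ℂ} (D : Dat b (fun s => deriv A s / A s) H) :
    ∀ᵐ θ : ℝ, ((∃ C : ℝ, ∀ᶠ x : ℝ in 𝓝[>] 0, (b (pt x θ)).im ≤ C) ∨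
      (∃ C : ℝ, ∀ᶠ x : ℝ in 𝓝[>] 0, C ≤ (b (pt x θ)).im)) →
      ∃ C : ℝ, ∀ᶠ x : ℝ in 𝓝[>] 0, |(b (pt x θ)).re| ≤ C := by
  -- the rotated Bloch function
  set A2 : ℂ → ℂ := fun s => exp (-I * b s) with hA2
  have hA2d : ∀ s ∈ HP, HasDerivAt A2 (exp (-I * b s) * (-I * (deriv A s / A s))) s :=
    fun s hs => ((D.hb s hs).const_mul (-I)).cexp
  have hBl : IsBl A2 := by
    refine ⟨fun s hs => (hA2d s hs).differentiableAt.differentiableWithinAt,
      fun s _ => exp_ne_zero _, fun s hs hs3 => ?_⟩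
    rw [(hA2d s hs).deriv, norm_mul, norm_mul, norm_neg, norm_I, one_mul]
    have h1 := D.bd s hs hs3
    have h2 : 0 ≤ ‖exp (-I * b s)‖ := norm_nonneg _
    calc s.re * (‖exp (-I * b s)‖ * ‖deriv A s / A s‖) =
        (s.re * ‖deriv A s / A s‖) * ‖exp (-I * b s)‖ := by ring
      _ ≤ 4 * ‖exp (-I * b s)‖ := by gcongr
  have hnA2 : ∀ s, ‖A2 s‖ = Real.exp (b s).im := by
    intro s
    rw [hA2, Complex.norm_exp]
    congr 1
    simp
  -- the small exponential
  set c : ℂ := -I * (1 / 1000 : ℝ) with hc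
  have hcn : ‖c‖ ≤ 1 / 1000 := by
    rw [hc, norm_mul, norm_neg, norm_I, one_mul, norm_real, Real.norm_eq_abs, abs_of_pos (by norm_num)]
  obtain ⟨K, hK⟩ := exists_prim (f := fun s => exp (c * b s))
    (fun s hs => (((D.hb s hs).const_mul c).cexp).differentiableAt.differentiableWithinAt)
  have E : EDat b (fun s => deriv A s / A s) H c (1 / 1000) K := ⟨D, hcn, le_rfl, hK⟩
  have hnF : ∀ s, ‖exp (c * b s)‖ = Real.exp ((b s).im / 1000) := by
    intro s
    rw [Complex.norm_exp]
    congr 1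
    rw [hc]
    simp [Complex.mul_re, Complex.mul_im]
    ring
  filter_upwards [bloch_fatou hBl, cm_conv E] with θ h1 h2
  intro hor
  have hor' : (∃ C : ℝ, ∀ᶠ x : ℝ in 𝓝[>] 0, ‖A2 (θ * I + x)‖ ≤ C) ∨
      (∃ c > (0 : ℝ), ∀ᶠ x : ℝ in 𝓝[>] 0, c ≤ ‖A2 (θ * I + x)‖) := by
    rcases hor with ⟨C, hC⟩ | ⟨C, hC⟩
    · left
      refine ⟨Real.exp C, ?_⟩
      filter_upwards [hC] with x hx
      rw [← pt_eq, hnA2]
      exact Real.exp_le_exp.mpr hx
    · right
      refine ⟨Real.exp C, Real.exp_pos _, ?_⟩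
      filter_upwards [hC] with x hx
      rw [← pt_eq, hnA2]
      exact Real.exp_le_exp.mpr hx
  obtain ⟨M, hM, hMt, -⟩ := h1 hor'
  have hdy : Tendsto (fun n : ℕ => (1 : ℝ) / 2 ^ n) atTop (𝓝[>] 0) := by
    rw [tendsto_nhdsWithin_iff]
    constructor
    · have := tendsto_pow_atTop_nhds_zero_of_lt_one (r := (1 / 2 : ℝ)) (by norm_num) (by norm_num)
      refine this.congr fun n => ?_
      rw [div_pow, one_pow]
    · exact Eventually.of_forall fun n => by change (0 : ℝ) < _; positivity
  set F : ℕ → ℂ := fun n => exp (c * b (pt (1 / 2 ^ n) θ)) with hF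
  have him : Tendsto (fun n : ℕ => (b (pt (1 / 2 ^ n) θ)).im) atTop (𝓝 (Real.log M)) := by
    have h3 := ((Real.continuousAt_log hM.ne').tendsto.comp hMt).comp hdy
    refine h3.congr fun n => ?_
    simp only [Function.comp]
    rw [← pt_eq, hnA2, Real.log_exp]
  have hFn : Tendsto (fun n => ‖F n‖) atTop (𝓝 (Real.exp (Real.log M / 1000))) := by
    have h3 := (Real.continuous_exp.tendsto _).comp (him.div_const 1000)
    refine h3.congr fun n => ?_
    simp only [Function.comp, hF]
    rw [hnF]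
  set M3 : ℝ := Real.exp (Real.log M / 1000) with hM3
  have hM30 : 0 < M3 := Real.exp_pos _
  have hcl : ∀ n, ‖cm K n θ - F n‖ ≤ 7 / 100 * ‖F n‖ := by
    intro n
    refine (cm_close E n θ).trans (le_of_eq ?_)
    simp only [hF]
    ring
  have hbdd : BddAbove (range fun n => ‖cm K n θ‖) := by
    obtain ⟨B, hB⟩ := hFn.bddAbove_range
    refine ⟨107 / 100 * B, ?_⟩
    rintro _ ⟨n, rfl⟩
    have h3 := hB ⟨n, rfl⟩
    have h4 : cm K n θ = (cm K n θ - F n) + F n := by ring
    have h5 := norm_add_le (cm K n θ - F n) (F n)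
    rw [← h4] at h5
    have h6 := hcl n
    change ‖cm K n θ‖ ≤ _
    simp only at h3
    linarith
  obtain ⟨w, hw⟩ := h2 hbdd
  have hw1 : 93 / 100 * M3 ≤ ‖w‖ := by
    refine le_of_tendsto_of_tendsto (hFn.const_mul (93 / 100)) hw.norm (Eventually.of_forall fun n => ?_)
    have h4 : F n = cm K n θ - (cm K n θ - F n) := by ring
    have h5 := norm_sub_le (cm K n θ) (cm K n θ - F n)
    rw [← h4] at h5
    have h6 := hcl n
    change 93 / 100 * ‖F n‖ ≤ ‖cm K n θ‖
    linarith
  have hw0 : 0 < ‖w‖ := by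
    have : 0 < 93 / 100 * M3 := by positivity
    linarith
  -- from some index on, F is near w
  have hev : ∀ᶠ n in atTop, ‖F n - w‖ ≤ 1 / 10 * ‖w‖ := by
    have h3 : ∀ᶠ n in atTop, ‖cm K n θ - w‖ < 1 / 100 * ‖w‖ := by
      have h4 : Tendsto (fun n => ‖cm K n θ - w‖) atTop (𝓝 0) := by
        have := (hw.sub_const w).norm
        rwa [sub_self, norm_zero] at this
      exact h4.eventually (gt_mem_nhds (by positivity))
    filter_upwards [h3] with n hn
    have h6 := hcl n
    have h7 : ‖F n‖ ≤ 11 / 10 * ‖w‖ := by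
      have h4 : F n = (cm K n θ - w) - (cm K n θ - F n) + w := by ring
      have h5 := norm_add_le ((cm K n θ - w) - (cm K n θ - F n)) w
      have h8 := norm_sub_le (cm K n θ - w) (cm K n θ - F n)
      rw [← h4] at h5
      linarith
    have h4 : F n - w = (cm K n θ - w) - (cm K n θ - F n) := by ring
    have h8 := norm_sub_le (cm K n θ - w) (cm K n θ - F n)
    rw [← h4] at h8
    linarith
  obtain ⟨n0, hn0⟩ := eventually_atTop.mp hev
  -- the argument does not jump
  set bn : ℕ → ℂ := fun n => b (pt (1 / 2 ^ n) θ) with hbn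
  have hstep : ∀ n, ‖bn (n + 1) - bn n‖ ≤ 4 := by
    intro n
    have h2n : (0 : ℝ) < 2 ^ n := by positivity
    have h2n1 : (1 : ℝ) ≤ 2 ^ n := one_le_pow₀ (by norm_num)
    have h3 := osc_ver D (t := 1 / 2 ^ (n + 1)) (l := 1 / 2 ^ n) (by positivity) (by
      apply one_div_le_one_div_of_le h2n
      rw [pow_succ]; linarith) (by rw [div_le_iff₀ h2n]; linarith) θ
    have h4 : (1 / 2 ^ n : ℝ) / (1 / 2 ^ (n + 1)) = 2 := by rw [pow_succ]; field_simp
    rw [h4] at h3
    have h5 : Real.log 2 < 1 := by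
      have := Real.log_two_lt_d9
      linarith
    exact h3.trans (by linarith)
  have hz : ∀ n, n0 ≤ n → |(c * (bn n - bn n0)).im| ≤ 1 := by
    intro n hn
    induction n, hn using Nat.le_induction with
    | base => simp
    | succ n hn ih =>
      apply small_arg
      · have h3 : c * (bn (n + 1) - bn n0) = c * (bn (n + 1) - bn n) + c * (bn n - bn n0) := by ring
        rw [h3, Complex.add_im]
        refine (abs_add_le _ _).trans ?_
        have h4 : |(c * (bn (n + 1) - bn n)).im| ≤ 1 / 1000 * 4 := by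
          refine (Complex.abs_im_le_norm _).trans ?_
          rw [norm_mul]
          have := hstep n
          gcongr
        linarith
      · have h3 : exp (c * (bn (n + 1) - bn n0)) = F (n + 1) / F n0 := by
          simp only [hF]
          rw [← Complex.exp_sub]
          congr 1
          simp only [hbn]; ring
        have h4 : F n0 ≠ 0 := exp_ne_zero _
        rw [h3, div_sub_one h4, norm_div]
        have h5 := hn0 (n + 1) (by omega)
        have h6 := hn0 n0 le_rfl
        have h7 : 9 / 10 * ‖w‖ ≤ ‖F n0‖ := by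
          have h8 : w = F n0 - (F n0 - w) := by ring
          have h9 := norm_sub_le (F n0) (F n0 - w)
          rw [← h8] at h9
          linarith
        have h8 : ‖F (n + 1) - F n0‖ ≤ 2 / 10 * ‖w‖ := by
          have h9 : F (n + 1) - F n0 = (F (n + 1) - w) - (F n0 - w) := by ring
          rw [h9]
          refine (norm_sub_le _ _).trans ?_
          linarith
        rw [div_le_iff₀ (by linarith)]
        linarith
  have hre : ∀ n, n0 ≤ n → |(bn n).re - (bn n0).re| ≤ 1000 := by
    intro n hn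
    have h3 := hz n hn
    have h4 : (c * (bn n - bn n0)).im = -(((bn n).re - (bn n0).re) / 1000) := by
      rw [hc]
      simp [Complex.mul_re, Complex.mul_im]
      ring
    rw [h4, abs_neg, abs_div, abs_of_pos (by norm_num : (0 : ℝ) < 1000),
      div_le_iff₀ (by norm_num)] at h3
    linarith
  refine ⟨|(bn n0).re| + 1004, ?_⟩
  have hpos : (0 : ℝ) < 1 / 2 ^ n0 := by positivity
  filter_upwards [Ioo_mem_nhdsGT hpos] with x hx
  have hx1 : x ≤ 1 := by
    have h3 : (1 : ℝ) ≤ 2 ^ n0 := one_le_pow₀ (by norm_num)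
    have h4 : (1 : ℝ) / 2 ^ n0 ≤ 1 := by rw [div_le_iff₀ (by positivity)]; linarith
    linarith [hx.2]
  obtain ⟨n, hn1, hn2⟩ := exists_nat_pow_near_of_lt_one hx.1 hx1 (by norm_num : (0 : ℝ) < 1 / 2)
    (by norm_num)
  rw [one_div_pow] at hn1 hn2
  have hn : n0 ≤ n := by
    by_contra h
    push Not at h
    have h3 : (1 : ℝ) / 2 ^ n0 ≤ 1 / 2 ^ (n + 1) := by
      apply one_div_le_one_div_of_le (by positivity)
      exact pow_le_pow_right₀ (by norm_num) h
    linarith [hx.2]
  have h2n : (0 : ℝ) < 2 ^ n := by positivity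
  have h2n1 : (1 : ℝ) ≤ 2 ^ n := one_le_pow₀ (by norm_num)
  have h3 := osc_ver D hx.1 hn2 (by rw [div_le_iff₀ h2n]; linarith) θ
  have h4 : Real.log (1 / 2 ^ n / x) ≤ 1 := by
    have h5 : (1 : ℝ) / 2 ^ n / x ≤ 2 := by
      rw [div_le_iff₀ hx.1]
      have : (1 : ℝ) / 2 ^ (n + 1) = 1 / 2 ^ n / 2 := by rw [pow_succ]; field_simp
      rw [this] at hn1
      linarith
    have h6 : Real.log (1 / 2 ^ n / x) ≤ Real.log 2 :=
      Real.log_le_log (div_pos (by positivity) hx.1) h5
    have := Real.log_two_lt_d9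
    linarith
  have h5 : |(b (pt x θ)).re - (bn n).re| ≤ 4 := by
    have h6 := Complex.abs_re_le_norm (b (pt x θ) - b (pt (1 / 2 ^ n) θ))
    rw [Complex.sub_re] at h6
    simp only [hbn]
    linarith
  have h6 := hre n hn
  have h7 : (b (pt x θ)).re = ((b (pt x θ)).re - (bn n).re) + ((bn n).re - (bn n0).re) +
      (bn n0).re := by ring
  rw [h7]
  refine (abs_add_le _ _).trans ?_
  have := abs_add_le ((b (pt x θ)).re - (bn n).re) ((bn n).re - (bn n0).re)
  linarith

end Pool.Agent.TH425.BF
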